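import Mathlib

set_option autoImplicit false

open Complex Metric Set Filter Topology ComplexConjugate

namespace Pool.Agent.Run7.h104.Coin

/-- The class `S` of normalised univalent functions in the unit disc. -/
def ClassS (f : ℂ → ℂ) : Prop :=
  DifferentiableOn ℂ f (ball 0 1) ∧ InjOn f (ball 0 1) ∧ f 0 = 0 ∧ deriv f 0 = 1

/-- `1 / (1 - conj a * z)`. -/
noncomputable def uu (a z : ℂ) : ℂ := (1 - conj a * z)⁻¹

/-- `- log (1 - conj a * z) - conj a * z`. -/
noncomputable def lam (a z : ℂ) : ℂ := -Complex.log (1 - conj a * z) - conj a * z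

/-- `- log (1 - |a|^2) - |a|^2`. -/
noncomputable def Dr (a : ℂ) : ℝ := -Real.log (1 - ‖a‖ ^ 2) - ‖a‖ ^ 2

lemma norm_cz {a z : ℂ} (ha : ‖a‖ < 1) (hz : ‖z‖ < 1) : ‖conj a * z‖ < 1 := by
  rw [norm_mul, RCLike.norm_conj]
  nlinarith [norm_nonneg a, norm_nonneg z]

lemma re_pos {a z : ℂ} (ha : ‖a‖ < 1) (hz : ‖z‖ < 1) : 0 < (1 - conj a * z).re := by
  have h1 := norm_cz ha hz
  have h2 := Complex.re_le_norm (conj a * z)
  simp only [Complex.sub_re, Complex.one_re]
  linarith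

lemma ne_zero' {a z : ℂ} (ha : ‖a‖ < 1) (hz : ‖z‖ < 1) : (1 - conj a * z) ≠ 0 := by
  intro h
  have := re_pos ha hz
  rw [h] at this
  simp at this

lemma uu_re_pos {a z : ℂ} (ha : ‖a‖ < 1) (hz : ‖z‖ < 1) : 0 < (uu a z).re := by
  unfold uu
  rw [Complex.inv_re]
  exact div_pos (re_pos ha hz) (Complex.normSq_pos.mpr (ne_zero' ha hz))

lemma uu_norm_le {a z : ℂ} (ha : ‖a‖ < 1) (hz : ‖z‖ < 1) : ‖uu a z‖ ≤ 1 / (1 - ‖z‖) := by
  unfold uu
  rw [norm_inv, ← one_div]
  apply one_div_le_one_div_of_le (by linarith)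
  have h1 : ‖(1:ℂ)‖ - ‖conj a * z‖ ≤ ‖1 - conj a * z‖ := norm_sub_norm_le _ _
  rw [norm_mul, RCLike.norm_conj, norm_one] at h1
  nlinarith [norm_nonneg a, norm_nonneg z]

lemma log_hasDeriv {a z : ℂ} (ha : ‖a‖ < 1) (hz : ‖z‖ < 1) :
    HasDerivAt (fun z => -Complex.log (1 - conj a * z)) (conj a * uu a z) z := by
  have h1 : HasDerivAt (fun z : ℂ => 1 - conj a * z) (-(conj a)) z := by
    simpa using ((hasDerivAt_id z).const_mul (conj a)).const_sub 1
  have h2 := h1.clog (Or.inl (re_pos ha hz))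
  refine h2.neg.congr_deriv ?_
  unfold uu
  rw [div_eq_mul_inv]
  ring

lemma lam_hasDeriv {a z : ℂ} (ha : ‖a‖ < 1) (hz : ‖z‖ < 1) :
    HasDerivAt (lam a) (conj a * (uu a z - 1)) z := by
  have h1 := log_hasDeriv ha hz
  have h2 : HasDerivAt (fun z : ℂ => conj a * z) (conj a) z := by
    simpa using (hasDerivAt_id z).const_mul (conj a)
  have h3 : HasDerivAt (lam a) (conj a * uu a z - conj a) z := h1.sub h2
  refine h3.congr_deriv ?_
  ring

lemma lam_self {a : ℂ} (ha : ‖a‖ < 1) : lam a a = (Dr a : ℂ) := by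
  unfold lam Dr
  have h1 : conj a * a = ((‖a‖ ^ 2 : ℝ) : ℂ) := by
    rw [mul_comm, Complex.mul_conj, Complex.normSq_eq_norm_sq]
  have h2 : (0:ℝ) ≤ 1 - ‖a‖ ^ 2 := by nlinarith [norm_nonneg a]
  rw [h1]
  have h3 : (1:ℂ) - ((‖a‖ ^ 2 : ℝ) : ℂ) = ((1 - ‖a‖ ^ 2 : ℝ) : ℂ) := by push_cast; ring
  rw [h3, ← Complex.ofReal_log h2]
  push_cast
  ring

lemma lam_zero (a : ℂ) : lam a 0 = 0 := by simp [lam]

/-- Bound for `lam`. -/
lemma lam_norm_le {a z : ℂ} (ha : ‖a‖ < 1) (hz : ‖z‖ < 1) {d : ℝ} (hd : 0 < d)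
    (hdz : d ≤ ‖1 - conj a * z‖) : ‖lam a z‖ ≤ 6 * Real.log (4 / d) := by
  have hre := re_pos ha hz
  set w : ℂ := 1 - conj a * z with hw
  have hw2 : ‖w‖ ≤ 2 := by
    calc ‖w‖ ≤ ‖(1:ℂ)‖ + ‖conj a * z‖ := norm_sub_le _ _
      _ ≤ 2 := by rw [norm_one]; linarith [norm_cz ha hz]
  have hwpos : 0 < ‖w‖ := lt_of_lt_of_le hd hdz
  have hd2 : d ≤ 2 := hdz.trans hw2
  have hlog2 : Real.log 2 ≤ Real.log (4 / d) := by
    apply Real.log_le_log (by norm_num)
    rw [le_div_iff₀ hd]; linarith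
  have hl2 : (0.69:ℝ) < Real.log 2 := by linarith [Real.log_two_gt_d9]
  have hre' : |(Complex.log w).re| ≤ Real.log (4 / d) := by
    rw [Complex.log_re, abs_le]
    constructor
    · have h1 : Real.log d ≤ Real.log ‖w‖ := Real.log_le_log hd hdz
      have h2 : Real.log (4 / d) = Real.log 4 - Real.log d := Real.log_div (by norm_num) hd.ne'
      have h3 : 0 ≤ Real.log 4 := Real.log_nonneg (by norm_num)
      linarith
    · exact (Real.log_le_log hwpos hw2).trans hlog2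
  have him' : |(Complex.log w).im| ≤ 2 := by
    rw [Complex.log_im]
    have h1 : |Complex.arg w| ≤ Real.pi / 2 := Complex.abs_arg_le_pi_div_two_iff.mpr hre.le
    have h2 : Real.pi < 3.15 := Real.pi_lt_d2
    linarith
  have hlog : ‖Complex.log w‖ ≤ Real.log (4 / d) + 2 :=
    (Complex.norm_le_abs_re_add_abs_im _).trans (by linarith)
  have : ‖lam a z‖ ≤ ‖Complex.log w‖ + ‖conj a * z‖ := by
    unfold lam
    calc ‖-Complex.log (1 - conj a * z) - conj a * z‖ ≤ ‖-Complex.log (1 - conj a * z)‖ + ‖conj a * z‖ :=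
          norm_sub_le _ _
      _ = _ := by rw [norm_neg]
  have h4 := norm_cz ha hz
  linarith

/-- Noshiro and Warschawski. -/
theorem noshiro {F F' : ℂ → ℂ} {H : Set ℂ} (hH : Convex ℝ H)
    (hF : ∀ w ∈ H, HasDerivAt F (F' w) w) (hre : ∀ w ∈ H, 0 < (F' w).re)
    {w₁ w₂ : ℂ} (h₁ : w₁ ∈ H) (h₂ : w₂ ∈ H) (heq : F w₁ = F w₂) : w₁ = w₂ := by
  by_contra hne
  set d := w₁ - w₂ with hd
  have hd0 : d ≠ 0 := sub_ne_zero.mpr hne
  let g : ℝ → ℝ := fun s => (F (w₂ + s * d) * (starRingEnd ℂ) d).re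
  have hmem : ∀ s ∈ Icc (0:ℝ) 1, w₂ + s * d ∈ H := by
    intro s hs
    have := hH h₂ h₁ (a := 1 - s) (b := s) (by linarith [hs.2]) hs.1 (by ring)
    have e : (1 - s) • w₂ + s • w₁ = w₂ + s * d := by
      rw [hd]; simp only [Complex.real_smul]; push_cast; ring
    rwa [e] at this
  have hderiv : ∀ s ∈ Icc (0:ℝ) 1, HasDerivAt g ((F' (w₂ + s * d) * d * (starRingEnd ℂ) d).re) s := by
    intro s hs
    have h1 : HasDerivAt F (F' (w₂ + s * d)) (w₂ + s * d) := hF _ (hmem s hs)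
    have h2 : HasDerivAt (fun s : ℝ => w₂ + (s : ℂ) * d) d s := by
      have := ((Complex.ofRealCLM.hasDerivAt (x := s)).mul_const d).const_add w₂
      simpa using this
    have h3 : HasDerivAt (fun s : ℝ => F (w₂ + (s : ℂ) * d)) (F' (w₂ + s * d) * d) s := by
      have := h1.comp_of_eq s h2 rfl
      simpa [Function.comp_def] using this
    have h4 := h3.mul_const ((starRingEnd ℂ) d)
    have h5 := (Complex.reCLM.hasFDerivAt.comp_hasDerivAt s h4)
    simpa [Function.comp_def, g] using h5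
  have hmono : StrictMonoOn g (Icc 0 1) := by
    apply strictMonoOn_of_deriv_pos (convex_Icc 0 1)
    · intro s hs
      exact (hderiv s hs).continuousAt.continuousWithinAt
    · intro s hs
      rw [interior_Icc] at hs
      have hs' : s ∈ Icc (0:ℝ) 1 := ⟨hs.1.le, hs.2.le⟩
      rw [(hderiv s hs').deriv]
      have e : F' (w₂ + s * d) * d * (starRingEnd ℂ) d = F' (w₂ + s * d) * ((normSq d : ℝ) : ℂ) := by
        rw [mul_assoc, Complex.mul_conj]
      rw [e, Complex.re_mul_ofReal]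
      exact mul_pos (hre _ (hmem s hs')) (Complex.normSq_pos.mpr hd0)
  have := hmono (left_mem_Icc.mpr zero_le_one) (right_mem_Icc.mpr zero_le_one) zero_lt_one
  have e1 : g 1 = (F w₁ * (starRingEnd ℂ) d).re := by simp [g, hd]
  have e0 : g 0 = (F w₂ * (starRingEnd ℂ) d).re := by simp [g]
  rw [e1, e0, heq] at this
  exact lt_irrefl _ this

/-- Term by term differentiation on the unit disc of a sum with locally uniform bounds. -/
lemma hasDeriv_tsum {g g' : ℕ → ℂ → ℂ}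
    (hg : ∀ n, ∀ y ∈ ball (0:ℂ) 1, HasDerivAt (g n) (g' n y) y)
    (hb : ∀ r : ℝ, 0 < r → r < 1 → ∃ u : ℕ → ℝ, Summable u ∧ ∀ n, ∀ y ∈ ball (0:ℂ) r, ‖g' n y‖ ≤ u n)
    (h0 : ∀ n, g n 0 = 0) {y : ℂ} (hy : y ∈ ball (0:ℂ) 1) :
    HasDerivAt (fun z => ∑' n, g n z) (∑' n, g' n y) y := by
  have hy1 : ‖y‖ < 1 := by simpa using hy
  obtain ⟨r, hr1, hr2⟩ := exists_between hy1
  have hr0 : 0 < r := lt_of_le_of_lt (norm_nonneg y) hr1
  obtain ⟨u, hu, hub⟩ := hb r hr0 hr2
  apply hasDerivAt_tsum_of_isPreconnected hu (isOpen_ball : IsOpen (ball (0:ℂ) r))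
    (convex_ball (0:ℂ) r).isPreconnected (y₀ := 0)
  · intro n x hx
    exact hg n x (ball_subset_ball hr2.le hx)
  · exact hub
  · simpa using hr0
  · simp only [h0]; exact summable_zero
  · simpa using hr1

/-- Assembly: a difference function whose derivative is a bounded function plus a sum of
`w n / (1 - conj (a n) z)`, with `w n` in the second quadrant, is up to a constant
the difference of two functions of `S`. -/
theorem assemble {a w : ℕ → ℂ} (ha : ∀ n, ‖a n‖ < 1) (ha0 : ∀ n, w n ≠ 0 → a n ≠ 0)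
    (hw : Summable fun n => ‖w n‖) (hre : ∀ n, (w n).re ≤ 0) (him : ∀ n, 0 ≤ (w n).im)
    {h R : ℂ → ℂ} {C : ℝ} (hR : ∀ z ∈ ball (0:ℂ) 1, ‖R z‖ ≤ C)
    (hh : ∀ z ∈ ball (0:ℂ) 1, HasDerivAt h (R z + ∑' n, w n * uu (a n) z) z)
    (h0 : h 0 = 0) (h1 : R 0 + ∑' n, w n * uu (a n) 0 = 0) :
    ∃ f g : ℂ → ℂ, ∃ κ : ℂ, ClassS f ∧ ClassS g ∧ κ ≠ 0 ∧ ∀ z, f z - g z = h z / κ := by
  have hC : 0 ≤ C := (norm_nonneg _).trans (hR 0 (by simp))
  set l : ℝ := C + 1 with hl
  -- the primitives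
  let P : ℕ → ℂ → ℂ := fun n z => ((w n).im : ℂ) * (-Complex.log (1 - conj (a n) * z) / conj (a n))
  let P' : ℕ → ℂ → ℂ := fun n z => ((w n).im : ℂ) * uu (a n) z
  have hP : ∀ n, ∀ y ∈ ball (0:ℂ) 1, HasDerivAt (P n) (P' n y) y := by
    intro n y hy
    have hy1 : ‖y‖ < 1 := by simpa using hy
    by_cases hwn : w n = 0
    · have e1 : P n = fun _ => 0 := by funext z; simp [P, hwn]
      have e2 : P' n y = 0 := by simp [P', hwn]
      rw [e1, e2]; exact hasDerivAt_const y 0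
    · have hn := ha0 n hwn
      have hc : conj (a n) ≠ 0 := by simpa using hn
      have := ((log_hasDeriv (ha n) hy1).div_const (conj (a n))).const_mul ((w n).im : ℂ)
      refine this.congr_deriv ?_
      show _ = ((w n).im : ℂ) * uu (a n) y
      field_simp
  have hPb : ∀ r : ℝ, 0 < r → r < 1 → ∃ u : ℕ → ℝ, Summable u ∧
      ∀ n, ∀ y ∈ ball (0:ℂ) r, ‖P' n y‖ ≤ u n := by
    intro r hr0 hr1
    refine ⟨fun n => ‖w n‖ * (1 / (1 - r)), hw.mul_right _, ?_⟩
    intro n y hy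
    have hyr : ‖y‖ < r := by simpa using hy
    simp only [P']
    rw [norm_mul, Complex.norm_real, Real.norm_eq_abs]
    apply mul_le_mul (Complex.abs_im_le_norm _) _ (norm_nonneg _) (norm_nonneg _)
    refine (uu_norm_le (ha n) (hyr.trans hr1)).trans ?_
    apply one_div_le_one_div_of_le (by linarith) (by linarith)
  have hP0 : ∀ n, P n 0 = 0 := by intro n; simp [P]
  let F : ℂ → ℂ := fun z => (l:ℂ) * (1 - I) * z + ∑' n, P n z
  let F' : ℂ → ℂ := fun z => (l:ℂ) * (1 - I) + ∑' n, P' n z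
  have hF : ∀ z ∈ ball (0:ℂ) 1, HasDerivAt F (F' z) z := by
    intro z hz
    have e1 : HasDerivAt (fun z : ℂ => (l:ℂ) * (1 - I) * z) ((l:ℂ) * (1 - I)) z := by
      simpa using (hasDerivAt_id z).const_mul ((l:ℂ) * (1 - I))
    exact e1.add (hasDeriv_tsum hP hPb hP0 hz)
  -- summability of the pieces
  have hsu : ∀ z ∈ ball (0:ℂ) 1, ∀ x : ℕ → ℂ, (∀ n, ‖x n‖ ≤ ‖w n‖) →
      Summable fun n => x n * uu (a n) z := by
    intro z hz x hx
    have hz1 : ‖z‖ < 1 := by simpa using hz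
    apply Summable.of_norm_bounded (g := fun n => ‖w n‖ * (1 / (1 - ‖z‖))) (hw.mul_right _)
    intro n
    rw [norm_mul]
    exact mul_le_mul (hx n) (uu_norm_le (ha n) hz1) (norm_nonneg _) (norm_nonneg _)
  have hxs : ∀ n, ‖((w n).im : ℂ)‖ ≤ ‖w n‖ := by
    intro n; rw [Complex.norm_real]; exact Complex.abs_im_le_norm _
  have hys : ∀ n, ‖((-(w n).re : ℝ) : ℂ)‖ ≤ ‖w n‖ := by
    intro n; rw [Complex.norm_real, norm_neg]; exact Complex.abs_re_le_norm _
  have hrepos : ∀ z ∈ ball (0:ℂ) 1, ∀ x : ℕ → ℝ, (∀ n, 0 ≤ x n) → (∀ n, ‖(x n : ℂ)‖ ≤ ‖w n‖) →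
      0 ≤ (∑' n, (x n : ℂ) * uu (a n) z).re := by
    intro z hz x hx0 hx
    have hz1 : ‖z‖ < 1 := by simpa using hz
    rw [Complex.re_tsum (hsu z hz _ hx)]
    apply tsum_nonneg
    intro n
    rw [Complex.re_ofReal_mul]
    exact mul_nonneg (hx0 n) (uu_re_pos (ha n) hz1).le
  have hFre : ∀ z ∈ ball (0:ℂ) 1, 0 < (F' z).re := by
    intro z hz
    have e1 := hrepos z hz (fun n => (w n).im) him hxs
    simp only [F', P', Complex.add_re]
    have e2 : ((l:ℂ) * (1 - I)).re = l := by simp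
    rw [e2]; linarith
  let G : ℂ → ℂ := fun z => I * F z - h z
  let G' : ℂ → ℂ := fun z => I * F' z - (R z + ∑' n, w n * uu (a n) z)
  have hG : ∀ z ∈ ball (0:ℂ) 1, HasDerivAt G (G' z) z := by
    intro z hz
    exact ((hF z hz).const_mul I).sub (hh z hz)
  have hGre : ∀ z ∈ ball (0:ℂ) 1, 0 < (G' z).re := by
    intro z hz
    have e1 := hrepos z hz (fun n => -(w n).re) (fun n => by linarith [hre n]) hys
    have e2 : G' z = (l:ℂ) * (1 + I) - R z + ∑' n, ((-(w n).re : ℝ) : ℂ) * uu (a n) z := by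
      have s1 := hsu z hz _ hxs
      have s2 := hsu z hz w (fun n => le_refl _)
      have e3 : ∑' n, ((-(w n).re : ℝ) : ℂ) * uu (a n) z
          = I * ∑' n, P' n z - ∑' n, w n * uu (a n) z := by
        rw [← tsum_mul_left, ← Summable.tsum_sub (s1.mul_left I) s2]
        congr 1
        funext n
        have e4 : ((-(w n).re : ℝ) : ℂ) = I * ((w n).im : ℂ) - w n := by
          apply Complex.ext <;> simp
        rw [e4]; ring
      rw [e3]
      simp only [G', F']
      linear_combination (l:ℂ) * (-1) * Complex.I_mul_I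
    rw [e2]
    simp only [Complex.add_re, Complex.sub_re]
    have e5 : ((l:ℂ) * (1 + I)).re = l := by simp
    have e6 : (R z).re ≤ C := (Complex.re_le_norm _).trans (hR z hz)
    rw [e5]; linarith
  have hmem0 : (0:ℂ) ∈ ball (0:ℂ) 1 := by simp
  set κ : ℂ := I * F' 0 with hκ
  have hκ0 : κ ≠ 0 := by
    intro h
    have := hFre 0 hmem0
    rcases mul_eq_zero.mp h with h | h
    · exact Complex.I_ne_zero h
    · rw [h] at this; simp at this
  have hF00 : F 0 = 0 := by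
    simp only [F, hP0]; simp
  refine ⟨fun z => I * F z / κ, fun z => G z / κ, κ, ?_, ?_, hκ0, ?_⟩
  · refine ⟨?_, ?_, ?_, ?_⟩
    · intro z hz
      exact (((hF z hz).const_mul I).div_const κ).differentiableAt.differentiableWithinAt
    · intro x hx y hy hxy
      have : F x = F y := by
        have h2 : I * F x / κ = I * F y / κ := hxy
        have h3 : I * F x = I * F y := by
          rwa [div_left_inj' hκ0] at h2
        exact mul_left_cancel₀ Complex.I_ne_zero h3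
      exact noshiro (convex_ball 0 1) hF hFre hx hy this
    · simp [hF00]
    · rw [(((hF 0 hmem0).const_mul I).div_const κ).deriv, ← hκ, div_self hκ0]
  · refine ⟨?_, ?_, ?_, ?_⟩
    · intro z hz
      exact ((hG z hz).div_const κ).differentiableAt.differentiableWithinAt
    · intro x hx y hy hxy
      have : G x = G y := by
        have h2 : G x / κ = G y / κ := hxy
        rwa [div_left_inj' hκ0] at h2
      exact noshiro (convex_ball 0 1) hG hGre hx hy this
    · simp [G, hF00, h0]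
    · rw [((hG 0 hmem0).div_const κ).deriv]
      simp only [G']
      rw [h1, sub_zero, ← hκ, div_self hκ0]
  · intro z
    simp only [G]
    field_simp
    ring

end Pool.Agent.Run7.h104.Coin
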