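import Mathlib

set_option autoImplicit false

open Complex Metric Set Filter Topology ComplexConjugate

namespace Pool.Agent.Run7.h104.Coin

/-- Contraction: a bounded infinite linear system with small off diagonal part. -/
theorem neumann (T : ℕ → ℕ → ℂ) (r : ℕ → ℂ) {θ c : ℝ} (hθ0 : 0 ≤ θ) (hθ : θ ≤ 1 / 2)
    (hT : ∀ m, Summable fun n => ‖T m n‖) (hT' : ∀ m, ∑' n, ‖T m n‖ ≤ θ)
    (hr : ∀ m, ‖r m‖ ≤ c) :
    ∃ v : ℕ → ℂ, (∀ m, ‖v m‖ ≤ 2 * c) ∧ (∀ m, ‖v m - r m‖ ≤ 2 * c * θ) ∧
      ∀ m, v m + ∑' n, T m n * v n = r m := by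
  have hc : 0 ≤ c := (norm_nonneg _).trans (hr 0)
  have hsum : ∀ (v : ℕ → ℂ) (B : ℝ), (∀ n, ‖v n‖ ≤ B) → ∀ m,
      Summable (fun n => T m n * v n) ∧ ‖∑' n, T m n * v n‖ ≤ θ * B := by
    intro v B hv m
    have hB : 0 ≤ B := (norm_nonneg _).trans (hv 0)
    have h1 : ∀ n, ‖T m n * v n‖ ≤ ‖T m n‖ * B := by
      intro n; rw [norm_mul]; exact mul_le_mul_of_nonneg_left (hv n) (norm_nonneg _)
    have h2 : Summable (fun n => ‖T m n‖ * B) := (hT m).mul_right B
    refine ⟨Summable.of_norm_bounded h2 h1, ?_⟩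
    have h3 : Summable (fun n => ‖T m n * v n‖) := Summable.of_nonneg_of_le (fun n => norm_nonneg _) h1 h2
    calc ‖∑' n, T m n * v n‖ ≤ ∑' n, ‖T m n * v n‖ := norm_tsum_le_tsum_norm h3
      _ ≤ ∑' n, ‖T m n‖ * B := h3.tsum_le_tsum h1 h2
      _ = (∑' n, ‖T m n‖) * B := tsum_mul_right
      _ ≤ θ * B := mul_le_mul_of_nonneg_right (hT' m) hB
  let Φ : BoundedContinuousFunction ℕ ℂ → BoundedContinuousFunction ℕ ℂ := fun v =>
    BoundedContinuousFunction.ofNormedAddCommGroupDiscrete (fun m => r m - ∑' n, T m n * v n)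
      (c + θ * ‖v‖) (fun m => by
        refine (norm_sub_le _ _).trans ?_
        exact add_le_add (hr m) (hsum v ‖v‖ (fun n => v.norm_coe_le_norm n) m).2)
  have hΦ : ∀ v m, Φ v m = r m - ∑' n, T m n * v n := fun v m => rfl
  have hcontr : ContractingWith (Real.toNNReal θ) Φ := by
    constructor
    · rw [← NNReal.coe_lt_coe, Real.coe_toNNReal θ hθ0]
      simp only [NNReal.coe_one]; linarith
    · apply LipschitzWith.of_dist_le_mul
      intro v w
      rw [Real.coe_toNNReal θ hθ0]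
      rw [BoundedContinuousFunction.dist_le (mul_nonneg hθ0 dist_nonneg)]
      intro m
      rw [dist_eq_norm, hΦ, hΦ]
      have h1 := (hsum v ‖v‖ (fun n => v.norm_coe_le_norm n) m).1
      have h2 := (hsum w ‖w‖ (fun n => w.norm_coe_le_norm n) m).1
      have e1 : r m - ∑' n, T m n * v n - (r m - ∑' n, T m n * w n)
          = -(∑' n, T m n * ((v - w : BoundedContinuousFunction ℕ ℂ) n)) := by
        have : ∑' n, T m n * ((v - w : BoundedContinuousFunction ℕ ℂ) n)
            = ∑' n, T m n * v n - ∑' n, T m n * w n := by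
          rw [← Summable.tsum_sub h1 h2]
          congr 1; funext n; simp only [BoundedContinuousFunction.coe_sub, Pi.sub_apply]; ring
        rw [this]; ring
      rw [e1, norm_neg, dist_eq_norm]
      exact (hsum _ _ (fun n => (v - w).norm_coe_le_norm n) m).2
  let v := ContractingWith.fixedPoint Φ hcontr
  have hv : Φ v = v := hcontr.fixedPoint_isFixedPt
  have hvm : ∀ m, v m = r m - ∑' n, T m n * v n := by
    intro m; rw [← hΦ, hv]
  have hn : ‖v‖ ≤ c + θ * ‖v‖ := by
    rw [BoundedContinuousFunction.norm_le (by positivity)]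
    intro m
    rw [hvm m]
    refine (norm_sub_le _ _).trans ?_
    exact add_le_add (hr m) (hsum v ‖v‖ (fun n => v.norm_coe_le_norm n) m).2
  have hn2 : ‖v‖ ≤ 2 * c := by
    have h1 : θ * ‖v‖ ≤ 1 / 2 * ‖v‖ := mul_le_mul_of_nonneg_right hθ (norm_nonneg _)
    linarith
  refine ⟨fun m => v m, fun m => (v.norm_coe_le_norm m).trans hn2, ?_, ?_⟩
  · intro m
    have h1 := (hsum v (2 * c) (fun n => (v.norm_coe_le_norm n).trans hn2) m).2
    have e1 : v m - r m = -(∑' n, T m n * v n) := by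
      rw [hvm m]; ring
    rw [e1, norm_neg]; linarith
  · intro m
    show v m + ∑' n, T m n * v n = r m
    have := hvm m
    linear_combination this

end Pool.Agent.Run7.h104.Coin
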