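import Mathlib

set_option autoImplicit false

open Complex Metric Set Filter Topology ComplexConjugate

namespace Pool.Agent.Run7.h104.Coin

/-- `x ^ 2 * φ x` with `φ` analytic in a larger disc. -/
lemma sq_pack {φ : ℂ → ℂ} {r : ℝ} (hr : 1 < r) (hφ : DifferentiableOn ℂ φ (ball 0 r)) :
    ∃ e' : ℂ → ℂ, ∃ C : ℝ, (∀ x ∈ ball (0:ℂ) 1, HasDerivAt (fun x => x ^ 2 * φ x) (e' x) x) ∧
      (∀ x ∈ ball (0:ℂ) 1, ‖e' x‖ ≤ C) ∧ e' 0 = 0 ∧ (∀ x ∈ ball (0:ℂ) 1, ‖x ^ 2 * φ x‖ ≤ C) := by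
  have hψ : DifferentiableOn ℂ (fun x => x ^ 2 * φ x) (ball 0 r) := by
    apply DifferentiableOn.mul _ hφ
    exact (differentiable_id.pow 2).differentiableOn
  have hsub : closedBall (0:ℂ) 1 ⊆ ball 0 r := closedBall_subset_ball hr
  have hd : ContinuousOn (deriv (fun x => x ^ 2 * φ x)) (closedBall (0:ℂ) 1) :=
    ((hψ.deriv isOpen_ball).continuousOn).mono hsub
  obtain ⟨C1, hC1⟩ := (isCompact_closedBall (0:ℂ) 1).exists_bound_of_continuousOn hd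
  obtain ⟨C2, hC2⟩ := (isCompact_closedBall (0:ℂ) 1).exists_bound_of_continuousOn
    (hψ.continuousOn.mono hsub)
  refine ⟨deriv (fun x => x ^ 2 * φ x), max C1 C2, ?_, ?_, ?_, ?_⟩
  · intro x hx
    exact (hψ.differentiableAt (isOpen_ball.mem_nhds (ball_subset_ball hr.le hx))).hasDerivAt
  · intro x hx
    exact (hC1 x (ball_subset_closedBall hx)).trans (le_max_left _ _)
  · have h0 : (0:ℂ) ∈ ball (0:ℂ) r := by simp; linarith
    have h1 : HasDerivAt φ (deriv φ 0) 0 := (hφ.differentiableAt (isOpen_ball.mem_nhds h0)).hasDerivAt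
    have h2 : HasDerivAt (fun x : ℂ => x ^ 2) (2 * 0) 0 := by
      simpa using hasDerivAt_pow 2 (0:ℂ)
    have h3 := (h2.mul h1).deriv
    have h4 : (fun x : ℂ => x ^ 2 * φ x) = (fun x : ℂ => x ^ 2) * φ := rfl
    rw [h4, h3]; simp
  · intro x hx
    exact (hC2 x (ball_subset_closedBall hx)).trans (le_max_right _ _)

lemma mem_bigball {ρ : ℝ} (hρ0 : 0 < ρ) {c x : ℂ} (hc : ‖c‖ = 1) (hx : x ∈ ball (0:ℂ) (1 / ρ)) :
    1 + (ρ:ℂ) * (c * x) ≠ 0 := by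
  have hx1 : ‖x‖ < 1 / ρ := by simpa using hx
  intro h
  have h1 : (ρ:ℂ) * (c * x) = -1 := by linear_combination h
  have h2 : ‖(ρ:ℂ) * (c * x)‖ = 1 := by rw [h1]; simp
  rw [norm_mul, norm_mul, hc, Complex.norm_real, Real.norm_eq_abs, abs_of_pos hρ0, one_mul] at h2
  rw [lt_div_iff₀ hρ0] at hx1
  linarith [mul_comm ρ ‖x‖]

lemma low_rho {ρ σ : ℝ} (hρ : 1 - ρ ≤ σ / 2) (hρ1 : ρ ≤ 1) {y : ℂ} (hy : ‖y‖ ≤ 1) (hσ : σ ≤ ‖1 + y‖) :
    σ / 2 ≤ ‖1 + (ρ:ℂ) * y‖ := by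
  have e : (1 + y) = (1 + (ρ:ℂ) * y) + ((1 - ρ : ℝ) : ℂ) * y := by push_cast; ring
  have h1 : ‖1 + y‖ ≤ ‖1 + (ρ:ℂ) * y‖ + ‖((1 - ρ : ℝ) : ℂ) * y‖ := by
    conv_lhs => rw [e]
    exact norm_add_le _ _
  have h2 : ‖((1 - ρ : ℝ) : ℂ) * y‖ ≤ 1 - ρ := by
    rw [norm_mul, Complex.norm_real, Real.norm_eq_abs, abs_of_nonneg (by linarith)]
    nlinarith [norm_nonneg y]
  linarith

/-- `1 / (1 + ρ y)` is near `1 / (1 + y)`. -/
lemma inv_close {ρ σ : ℝ} (hσ0 : 0 < σ) (hρ : 1 - ρ ≤ σ / 2) (hρ1 : ρ ≤ 1) {y : ℂ} (hy : ‖y‖ ≤ 1)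
    (hσ : σ ≤ ‖1 + y‖) :
    ‖(1 + (ρ:ℂ) * y)⁻¹ - (1 + y)⁻¹‖ ≤ 2 * (1 - ρ) / σ ^ 2 := by
  have h1 := low_rho hρ hρ1 hy hσ
  have n1 : (1 + (ρ:ℂ) * y) ≠ 0 := by
    intro h; rw [h] at h1; simp at h1; linarith
  have n2 : (1 + y) ≠ 0 := by
    intro h; rw [h] at hσ; simp at hσ; linarith
  have e : (1 + (ρ:ℂ) * y)⁻¹ - (1 + y)⁻¹ = (((1 - ρ : ℝ) : ℂ) * y) / ((1 + (ρ:ℂ) * y) * (1 + y)) := by
    field_simp; push_cast; ring
  rw [e, norm_div, norm_mul, norm_mul, Complex.norm_real, Real.norm_eq_abs, abs_of_nonneg (by linarith)]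
  have h2 : σ / 2 * σ ≤ ‖1 + (ρ:ℂ) * y‖ * ‖1 + y‖ :=
    mul_le_mul h1 hσ hσ0.le (norm_nonneg _)
  have h3 : (1 - ρ) * ‖y‖ ≤ (1 - ρ) := by nlinarith [norm_nonneg y]
  calc (1 - ρ) * ‖y‖ / (‖1 + (ρ:ℂ) * y‖ * ‖1 + y‖) ≤ (1 - ρ) / (σ / 2 * σ) := by
        apply div_le_div₀ (by linarith) h3 (by positivity) h2
    _ = 2 * (1 - ρ) / σ ^ 2 := by field_simp

lemma re_inv {y : ℂ} (hn : 1 + y ≠ 0) : ((1 + y)⁻¹).re = 1 / 2 + (1 - ‖y‖ ^ 2) / (2 * ‖1 + y‖ ^ 2) := by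
  have h1 : ‖1 + y‖ ^ 2 = 1 + 2 * y.re + ‖y‖ ^ 2 := by
    rw [← Complex.normSq_eq_norm_sq, ← Complex.normSq_eq_norm_sq, Complex.normSq_apply, Complex.normSq_apply]
    simp; ring
  have h2 : ‖1 + y‖ ≠ 0 := norm_ne_zero_iff.mpr hn
  rw [Complex.inv_re, Complex.normSq_eq_norm_sq]
  simp only [Complex.add_re, Complex.one_re]
  have h3 : (1 + y.re) = (‖1 + y‖ ^ 2 + (1 - ‖y‖ ^ 2)) / 2 := by rw [h1]; ring
  rw [h3]; field_simp

/-- Functions for the finitely many exceptional points. -/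
theorem badfun {z : ℕ → ℂ} (hz : ∀ n, ‖z n‖ < 1) (hinj : Function.Injective z)
    (hlim : Tendsto (fun n => ‖z n‖) atTop (𝓝 1)) {c : ℂ} (hc : ‖c‖ = 1) {σ : ℝ} (hσ0 : 0 < σ)
    (hσ : ∀ n, σ ≤ ‖1 + c * z n‖) (j : ℕ) {η : ℝ} (hη : 0 < η) :
    ∃ e e' : ℂ → ℂ, ∃ C : ℝ, (∀ x ∈ ball (0:ℂ) 1, HasDerivAt e (e' x) x) ∧
      (∀ x ∈ ball (0:ℂ) 1, ‖e' x‖ ≤ C) ∧ e' 0 = 0 ∧ e 0 = 0 ∧ (z j ≠ 0 → e (z j) = 1) ∧
      ∀ m, m ≠ j → ‖e (z m)‖ ≤ η := by
  by_cases hj : z j = 0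
  · refine ⟨fun _ => 0, fun _ => 0, 0, fun x _ => hasDerivAt_const x 0, by simp, rfl, rfl,
      fun h => absurd hj h, fun m _ => by simpa using hη.le⟩
  have hcn : ∀ n, ‖c * z n‖ = ‖z n‖ := fun n => by rw [norm_mul, hc, one_mul]
  have hσ2 : σ ≤ 2 := by
    refine (hσ 0).trans ((norm_add_le _ _).trans ?_)
    rw [hcn, norm_one]; linarith [hz 0]
  set a := z j with ha
  have ha1 : ‖a‖ < 1 := hz j
  set s : ℝ := (1 - ‖a‖ ^ 2) / 8 with hs
  have hs0 : 0 < s := by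
    rw [hs]; apply div_pos _ (by norm_num); nlinarith [norm_nonneg a]
  have hs1 : s ≤ 1 / 8 := by rw [hs]; nlinarith [norm_nonneg a, sq_nonneg ‖a‖]
  set τ : ℝ := min (σ / 2) (s * σ ^ 2 / 8) with hτ
  have hτ0 : 0 < τ := lt_min (by linarith) (by positivity)
  have hτ1 : τ ≤ 1 / 16 := by
    refine (min_le_right _ _).trans ?_
    have : σ ^ 2 ≤ 4 := by nlinarith
    nlinarith [sq_nonneg σ]
  set ρ : ℝ := 1 - τ with hρ
  have hρ0 : 0 < ρ := by linarith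
  have hρ1 : ρ ≤ 1 := by linarith
  have hρσ : 1 - ρ ≤ σ / 2 := by rw [hρ]; linarith [min_le_left (σ / 2) (s * σ ^ 2 / 8)]
  have hclose : ∀ n, ‖(1 + (ρ:ℂ) * (c * z n))⁻¹ - (1 + c * z n)⁻¹‖ ≤ s / 4 := by
    intro n
    refine (inv_close hσ0 hρσ hρ1 (by rw [hcn]; exact (hz n).le) (hσ n)).trans ?_
    rw [div_le_iff₀ (by positivity)]
    have : 1 - ρ = τ := by rw [hρ]; ring
    rw [this]
    have := min_le_right (σ / 2) (s * σ ^ 2 / 8)
    rw [← hτ] at this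
    linarith
  have hne : ∀ n, 1 + c * z n ≠ 0 := by
    intro n h
    have := hσ n
    rw [h] at this; simp at this; linarith
  have hreclose : ∀ n, |((1 + (ρ:ℂ) * (c * z n))⁻¹).re - ((1 + c * z n)⁻¹).re| ≤ s / 4 := by
    intro n
    rw [← Complex.sub_re]
    exact (Complex.abs_re_le_norm _).trans (hclose n)
  -- lower bound at a
  have hA : 1 / 2 + 3 * s / 4 ≤ ((1 + (ρ:ℂ) * (c * a))⁻¹).re := by
    have h1 := (abs_le.mp (hreclose j)).1
    have h2 : 1 / 2 + s ≤ ((1 + c * z j)⁻¹).re := by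
      rw [re_inv (hne j), hcn, ← ha]
      have h3 : ‖1 + c * a‖ ^ 2 ≤ 4 := by
        have : ‖1 + c * a‖ ≤ 2 := by
          refine (norm_add_le _ _).trans ?_
          rw [ha, hcn, norm_one]; linarith [hz j]
        nlinarith [norm_nonneg (1 + c * a)]
      have h4 : 0 < ‖1 + c * a‖ ^ 2 := by
        have := norm_pos_iff.mpr (hne j)
        positivity
      have h5 : s ≤ (1 - ‖a‖ ^ 2) / (2 * ‖1 + c * a‖ ^ 2) := by
        rw [hs]
        apply div_le_div_of_nonneg_left (by nlinarith [norm_nonneg a]) (by positivity) (by linarith)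
      linarith
    rw [ha]
    linarith
  -- the tail
  have hlim2 : Tendsto (fun n => (1 - ‖z n‖ ^ 2) / (2 * σ ^ 2)) atTop (𝓝 0) := by
    have := ((hlim.pow 2).const_sub 1).div_const (2 * σ ^ 2)
    simpa using this
  obtain ⟨N, hN⟩ := eventually_atTop.mp ((hlim2.eventually (gt_mem_nhds (show (0:ℝ) < s / 4 by positivity))))
  have hB : ∀ m, N ≤ m → ((1 + (ρ:ℂ) * (c * z m))⁻¹).re ≤ 1 / 2 + s / 2 := by
    intro m hm
    have h1 := (abs_le.mp (hreclose m)).2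
    have h2 := hN m hm
    have h3 : ((1 + c * z m)⁻¹).re ≤ 1 / 2 + s / 4 := by
      rw [re_inv (hne m), hcn]
      have h4 : (1 - ‖z m‖ ^ 2) / (2 * ‖1 + c * z m‖ ^ 2) ≤ (1 - ‖z m‖ ^ 2) / (2 * σ ^ 2) := by
        apply div_le_div_of_nonneg_left (by nlinarith [norm_nonneg (z m), hz m]) (by positivity)
        have := hσ m
        nlinarith
      linarith
    linarith
  -- the product
  set S : Finset ℕ := (Finset.range N).erase j with hS
  set Pc : ℝ := ∏ i ∈ S, (2 / ‖a - z i‖) with hPc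
  have hPc0 : 0 ≤ Pc := Finset.prod_nonneg fun i _ => by positivity
  have hexp : Tendsto (fun k : ℕ => Real.exp (-(k * (s / 4))) * (Pc / ‖a‖ ^ 2)) atTop (𝓝 0) := by
    have h1 : Tendsto (fun k : ℕ => Real.exp (-(k * (s / 4)))) atTop (𝓝 0) := by
      apply Real.tendsto_exp_neg_atTop_nhds_zero.comp
      exact tendsto_natCast_atTop_atTop.atTop_mul_const (by positivity)
    simpa using h1.mul_const (Pc / ‖a‖ ^ 2)
  obtain ⟨k, hk⟩ := (hexp.eventually (gt_mem_nhds hη)).exists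
  let φ : ℂ → ℂ := fun x => Complex.exp (k * ((1 + (ρ:ℂ) * (c * x))⁻¹ - (1 + (ρ:ℂ) * (c * a))⁻¹))
    * (∏ i ∈ S, ((x - z i) / (a - z i))) / a ^ 2
  have hφ : DifferentiableOn ℂ φ (ball 0 (1 / ρ)) := by
    intro x hx
    apply DifferentiableAt.differentiableWithinAt
    have h1 := mem_bigball hρ0 hc hx
    have h2 : DifferentiableAt ℂ (fun x : ℂ => (1 + (ρ:ℂ) * (c * x))⁻¹) x := by
      have h2' : DifferentiableAt ℂ (fun x : ℂ => 1 + (ρ:ℂ) * (c * x)) x := by fun_prop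
      exact h2'.fun_inv h1
    have h3 : DifferentiableAt ℂ (fun x : ℂ => Complex.exp (k * ((1 + (ρ:ℂ) * (c * x))⁻¹ - (1 + (ρ:ℂ) * (c * a))⁻¹))) x := by
      apply DifferentiableAt.cexp
      exact (h2.sub_const _).const_mul _
    have h4 : DifferentiableAt ℂ (fun x : ℂ => ∏ i ∈ S, ((x - z i) / (a - z i))) x := by
      fun_prop
    exact (h3.mul h4).div_const _
  have h1r : 1 < 1 / ρ := by
    rw [lt_div_iff₀ hρ0]; linarith
  obtain ⟨e', C, he1, he2, he3, he4⟩ := sq_pack h1r hφ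
  refine ⟨fun x => x ^ 2 * φ x, e', C, he1, he2, he3, by simp, ?_, ?_⟩
  · intro _
    have h2 : ∏ i ∈ S, ((a - z i) / (a - z i)) = 1 := by
      apply Finset.prod_eq_one
      intro i hi
      have : i ≠ j := (Finset.mem_erase.mp hi).1
      apply div_self
      intro h
      exact this (hinj (by rw [← ha]; exact (sub_eq_zero.mp h).symm))
    simp only [φ]
    rw [h2]
    simp
    field_simp
  · intro m hm
    by_cases hmN : m < N
    · have h2 : ∏ i ∈ S, ((z m - z i) / (a - z i)) = 0 := by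
        apply Finset.prod_eq_zero (i := m)
        · exact Finset.mem_erase.mpr ⟨hm, Finset.mem_range.mpr hmN⟩
        · simp
      simp only [φ]
      rw [h2]; simpa using hη.le
    · push Not at hmN
      have h3 := hB m hmN
      have h4 : ‖∏ i ∈ S, ((z m - z i) / (a - z i))‖ ≤ Pc := by
        rw [norm_prod]
        apply Finset.prod_le_prod
        · intro i _; exact norm_nonneg _
        · intro i _
          rw [norm_div]
          apply div_le_div_of_nonneg_right _ (norm_nonneg _)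
          exact (norm_sub_le _ _).trans (by linarith [hz m, hz i])
      have h5 : ‖Complex.exp (k * ((1 + (ρ:ℂ) * (c * z m))⁻¹ - (1 + (ρ:ℂ) * (c * a))⁻¹))‖
          ≤ Real.exp (-(k * (s / 4))) := by
        rw [Complex.norm_exp]
        apply Real.exp_le_exp.mpr
        have e1 : ((k:ℂ) * ((1 + (ρ:ℂ) * (c * z m))⁻¹ - (1 + (ρ:ℂ) * (c * a))⁻¹)).re
            = k * (((1 + (ρ:ℂ) * (c * z m))⁻¹).re - ((1 + (ρ:ℂ) * (c * a))⁻¹).re) := by
          have : (k:ℂ) = ((k:ℝ):ℂ) := by simp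
          rw [this, Complex.re_ofReal_mul, Complex.sub_re]
        rw [e1]
        have hk0 : (0:ℝ) ≤ k := Nat.cast_nonneg k
        nlinarith
      have h6 : ‖z m ^ 2‖ ≤ 1 := by
        rw [norm_pow]; exact pow_le_one₀ (norm_nonneg _) (hz m).le
      simp only [φ]
      rw [norm_mul, norm_div, norm_mul, norm_pow a 2]
      calc ‖z m ^ 2‖ * (‖Complex.exp (k * ((1 + (ρ:ℂ) * (c * z m))⁻¹ - (1 + (ρ:ℂ) * (c * a))⁻¹))‖ *
            ‖∏ i ∈ S, ((z m - z i) / (a - z i))‖ / ‖a‖ ^ 2)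
          ≤ 1 * (Real.exp (-(k * (s / 4))) * Pc / ‖a‖ ^ 2) := by
            apply mul_le_mul h6 _ (by positivity) (by norm_num)
            apply div_le_div_of_nonneg_right _ (by positivity)
            exact mul_le_mul h5 h4 (norm_nonneg _) (Real.exp_pos _).le
        _ = Real.exp (-(k * (s / 4))) * (Pc / ‖a‖ ^ 2) := by ring
        _ ≤ η := hk.le

end Pool.Agent.Run7.h104.Coin
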