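import Mathlib

set_option autoImplicit false

open Complex Metric Set Filter Topology ComplexConjugate

namespace Pool.Agent.Run7.h104.Coin

lemma summable_ite' {N0 : ℕ} {f g : ℕ → ℝ} (hg : Summable g) :
    Summable (fun n => if n < N0 then f n else g n) := by
  rw [← summable_nat_add_iff N0]
  have : (fun n => if n + N0 < N0 then f (n + N0) else g (n + N0)) = fun n => g (n + N0) := by
    funext n; rw [if_neg (by omega)]
  rw [this]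
  exact (summable_nat_add_iff N0).mpr hg

lemma tsum_ite' {N0 : ℕ} {x : ℝ} {g : ℕ → ℝ} (hg : Summable g) :
    ∑' n, (if n < N0 then x else g n) = N0 * x + ∑' k, g (k + N0) := by
  rw [← (summable_ite' (f := fun _ => x) (N0 := N0) hg).sum_add_tsum_nat_add N0]
  congr 1
  · rw [Finset.sum_congr rfl (g := fun _ => x)]
    · simp
    · intro i hi
      rw [if_pos (Finset.mem_range.mp hi)]
  · congr 1; funext n; rw [if_neg (by omega)]

/-- The elementary facts about the hypothesis. -/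
lemma prelim {z : ℕ → ℂ} (hz : ∀ n, ‖z n‖ < 1)
    {d : ℕ → ℝ} (hd : ∀ n, 0 < d n) (hsep : ∀ m n, m ≠ n → d n ≤ ‖1 - conj (z n) * z m‖)
    (hsum : Summable fun n => Real.log (4 / d n) / Real.log (4 / (1 - ‖z n‖))) :
    (∀ n, 0 < Real.log (4 / (1 - ‖z n‖))) ∧ (∀ n, Real.log 2 ≤ Real.log (4 / d n)) ∧
    Summable (fun n => 1 / Real.log (4 / (1 - ‖z n‖))) ∧
    Tendsto (fun n => Real.log (4 / (1 - ‖z n‖))) atTop atTop ∧
    Tendsto (fun n => ‖z n‖) atTop (𝓝 1) := by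
  have hL : ∀ n, 0 < Real.log (4 / (1 - ‖z n‖)) := by
    intro n
    apply Real.log_pos
    rw [lt_div_iff₀ (by linarith [hz n])]
    linarith [norm_nonneg (z n)]
  have hl : ∀ n, Real.log 2 ≤ Real.log (4 / d n) := by
    intro n
    apply Real.log_le_log (by norm_num)
    rw [le_div_iff₀ (hd n)]
    have h1 := hsep (n + 1) n (by omega)
    have h2 : ‖1 - conj (z n) * z (n + 1)‖ ≤ 2 := by
      refine (norm_sub_le _ _).trans ?_
      rw [norm_mul, RCLike.norm_conj, norm_one]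
      nlinarith [hz n, hz (n + 1), norm_nonneg (z n), norm_nonneg (z (n + 1))]
    linarith
  have hl2 : (1:ℝ) / 2 ≤ Real.log 2 := by linarith [Real.log_two_gt_d9]
  have hs : Summable (fun n => 1 / Real.log (4 / (1 - ‖z n‖))) := by
    apply Summable.of_nonneg_of_le (fun n => by have := hL n; positivity) _ (hsum.mul_left 2)
    intro n
    have h1 := hL n
    have h2 := hl n
    rw [← mul_div_assoc]
    apply div_le_div_of_nonneg_right _ h1.le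
    linarith
  have ht : Tendsto (fun n => Real.log (4 / (1 - ‖z n‖))) atTop atTop := by
    have h1 := hs.tendsto_atTop_zero
    have h2 : Tendsto (fun n => 1 / Real.log (4 / (1 - ‖z n‖))) atTop (𝓝[>] 0) := by
      rw [tendsto_nhdsWithin_iff]
      refine ⟨h1, Eventually.of_forall fun n => ?_⟩
      exact one_div_pos.mpr (hL n)
    have h3 := tendsto_inv_nhdsGT_zero.comp h2
    refine h3.congr ?_
    intro n
    simp
  refine ⟨hL, hl, hs, ht, ?_⟩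
  have h4 : Tendsto (fun n => 1 - 4 * Real.exp (-Real.log (4 / (1 - ‖z n‖)))) atTop (𝓝 (1 - 4 * 0)) :=
    ((Real.tendsto_exp_neg_atTop_nhds_zero.comp ht).const_mul 4).const_sub 1
  have h5 : (fun n => 1 - 4 * Real.exp (-Real.log (4 / (1 - ‖z n‖)))) = fun n => ‖z n‖ := by
    funext n
    have h6 : 0 < 1 - ‖z n‖ := by linarith [hz n]
    rw [Real.exp_neg, Real.exp_log (by positivity)]
    field_simp
    ring
  rw [h5] at h4
  simpa using h4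

lemma main_close {ρ σ : ℝ} {y A : ℂ} (hσ0 : 0 < σ) (hρ1 : ρ ≤ 1) (hy : ‖y‖ ≤ 1) (hσ : σ ≤ ‖1 + y‖)
    (hA : ‖A‖ ≤ 2 / σ) (hAB : ‖A - (1 + y)⁻¹‖ ≤ 2 * (1 - ρ) / σ ^ 2)
    (h1 : 6 * (1 - ρ) / σ ^ 3 ≤ 1 / 64) (h2 : (1 - ‖y‖ ^ 2) * (1 / σ ^ 2 + 1 / σ ^ 3) ≤ 1 / 64) :
    ‖((‖y‖ ^ 2 : ℝ) : ℂ) * y * A ^ 2 - ((1 / ‖1 + y‖ ^ 2 : ℝ) : ℂ)‖ ≤ 1 / 32 := by
  have hyn := norm_nonneg y
  have hy2 : 0 ≤ 1 - ‖y‖ ^ 2 := by nlinarith
  set B : ℂ := (1 + y)⁻¹ with hB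
  have n1 : 1 + y ≠ 0 := by
    intro h; rw [h] at hσ; simp at hσ; linarith
  have n2 : 1 + conj y ≠ 0 := by
    intro h
    apply n1
    have := congrArg conj h
    simpa using this
  have hBn : ‖B‖ ≤ 1 / σ := by
    rw [hB, norm_inv, ← one_div]
    exact one_div_le_one_div_of_le hσ0 hσ
  have hBB : B * conj B = ((1 / ‖1 + y‖ ^ 2 : ℝ) : ℂ) := by
    rw [Complex.mul_conj, Complex.normSq_eq_norm_sq, hB, norm_inv]
    congr 1
    rw [inv_pow, one_div]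
  have hyy : y * conj y = ((‖y‖ ^ 2 : ℝ) : ℂ) := by
    rw [Complex.mul_conj, Complex.normSq_eq_norm_sq]
  have key : y * B ^ 2 - B * conj B = (((‖y‖ ^ 2 : ℝ) : ℂ) - 1) * (B ^ 2 * conj B) := by
    rw [← hyy, hB]
    have : conj ((1 + y)⁻¹) = (1 + conj y)⁻¹ := by simp
    rw [this]
    field_simp
    ring
  have dec : ((‖y‖ ^ 2 : ℝ) : ℂ) * y * A ^ 2 - ((1 / ‖1 + y‖ ^ 2 : ℝ) : ℂ)
      = ((‖y‖ ^ 2 : ℝ) : ℂ) * y * ((A - B) * (A + B)) + (((‖y‖ ^ 2 : ℝ) : ℂ) - 1) * (y * B ^ 2)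
        + (((‖y‖ ^ 2 : ℝ) : ℂ) - 1) * (B ^ 2 * conj B) := by
    rw [← key, ← hBB]; ring
  have hn1 : ‖((‖y‖ ^ 2 : ℝ) : ℂ) - 1‖ = 1 - ‖y‖ ^ 2 := by
    have : ((‖y‖ ^ 2 : ℝ) : ℂ) - 1 = ((-(1 - ‖y‖ ^ 2) : ℝ) : ℂ) := by push_cast; ring
    rw [this, Complex.norm_real, norm_neg, Real.norm_eq_abs, abs_of_nonneg hy2]
  have b1 : ‖((‖y‖ ^ 2 : ℝ) : ℂ) * y * ((A - B) * (A + B))‖ ≤ 6 * (1 - ρ) / σ ^ 3 := by
    rw [norm_mul, norm_mul, norm_mul, Complex.norm_real, Real.norm_eq_abs, abs_of_nonneg (by positivity)]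
    have c1 : ‖A + B‖ ≤ 3 / σ := by
      refine (norm_add_le _ _).trans ?_
      have : 3 / σ = 2 / σ + 1 / σ := by ring
      linarith
    have c2 : ‖y‖ ^ 2 * ‖y‖ ≤ 1 := by
      have : ‖y‖ ^ 2 ≤ 1 := by nlinarith
      nlinarith [sq_nonneg ‖y‖]
    calc ‖y‖ ^ 2 * ‖y‖ * (‖A - B‖ * ‖A + B‖) ≤ 1 * (2 * (1 - ρ) / σ ^ 2 * (3 / σ)) := by
          apply mul_le_mul c2 _ (by positivity) (by norm_num)
          exact mul_le_mul hAB c1 (norm_nonneg _) ((norm_nonneg _).trans hAB)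
      _ = 6 * (1 - ρ) / σ ^ 3 := by field_simp; ring
  have b2 : ‖(((‖y‖ ^ 2 : ℝ) : ℂ) - 1) * (y * B ^ 2)‖ ≤ (1 - ‖y‖ ^ 2) * (1 / σ ^ 2) := by
    rw [norm_mul, hn1, norm_mul, norm_pow]
    apply mul_le_mul_of_nonneg_left _ hy2
    calc ‖y‖ * ‖B‖ ^ 2 ≤ 1 * (1 / σ) ^ 2 := by
          apply mul_le_mul hy (pow_le_pow_left₀ (norm_nonneg _) hBn 2) (by positivity) (by norm_num)
      _ = 1 / σ ^ 2 := by rw [one_mul, div_pow, one_pow]
  have b3 : ‖(((‖y‖ ^ 2 : ℝ) : ℂ) - 1) * (B ^ 2 * conj B)‖ ≤ (1 - ‖y‖ ^ 2) * (1 / σ ^ 3) := by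
    rw [norm_mul, hn1, norm_mul, norm_pow, RCLike.norm_conj]
    apply mul_le_mul_of_nonneg_left _ hy2
    calc ‖B‖ ^ 2 * ‖B‖ = ‖B‖ ^ 3 := by ring
      _ ≤ (1 / σ) ^ 3 := pow_le_pow_left₀ (norm_nonneg _) hBn 3
      _ = 1 / σ ^ 3 := by rw [div_pow, one_pow]
  rw [dec]
  refine (norm_add₃_le).trans ?_
  have : (1 - ‖y‖ ^ 2) * (1 / σ ^ 2 + 1 / σ ^ 3) = (1 - ‖y‖ ^ 2) * (1 / σ ^ 2) + (1 - ‖y‖ ^ 2) * (1 / σ ^ 3) := by ring
  linarith

end Pool.Agent.Run7.h104.Coin
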