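import Mathlib
import Pool.Agent.Run7.h104.Coin.P1
import Pool.Agent.Run7.h104.Coin.P2
import Pool.Agent.Run7.h104.Coin.P3
import Pool.Agent.Run7.h104.Coin.P4

set_option autoImplicit false

open Complex Metric Set Filter Topology ComplexConjugate

namespace Pool.Agent.Run7.h104.Coin

theorem core {z : ℕ → ℂ} (hz : ∀ n, ‖z n‖ < 1) (hinj : Function.Injective z) (hz0 : z 0 ≠ 0)
    {d : ℕ → ℝ} (hd : ∀ n, 0 < d n) (hsep : ∀ m n, m ≠ n → d n ≤ ‖1 - conj (z n) * z m‖)
    (hsum : Summable fun n => Real.log (4 / d n) / Real.log (4 / (1 - ‖z n‖)))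
    {c : ℂ} (hc : ‖c‖ = 1) {σ : ℝ} (hσ0 : 0 < σ) (hσ : ∀ n, σ ≤ ‖1 + c * z n‖) :
    ∃ f g : ℂ → ℂ, ClassS f ∧ ClassS g ∧ f (z 0) ≠ g (z 0) ∧ ∀ n, n ≠ 0 → f (z n) = g (z n) := by
  obtain ⟨hL, hl, hs1, htL, hlim⟩ := prelim hz hd hsep hsum
  set L : ℕ → ℝ := fun n => Real.log (4 / (1 - ‖z n‖)) with hLdef
  set a : ℕ → ℝ := fun n => Real.log (4 / d n) / L n with hadef
  have hcn : ∀ n, ‖c * z n‖ = ‖z n‖ := fun n => by rw [norm_mul, hc, one_mul]
  have hσ2 : σ ≤ 2 := by
    refine (hσ 0).trans ((norm_add_le _ _).trans ?_)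
    rw [hcn, norm_one]; linarith [hz 0]
  -- the choice of ρ
  set τ : ℝ := min (σ / 2) (σ ^ 3 / 384) with hτ
  have hτ0 : 0 < τ := lt_min (by linarith) (by positivity)
  have hτ1 : τ < 1 := by
    refine lt_of_le_of_lt (min_le_right _ _) ?_
    have : σ ^ 3 ≤ 2 ^ 3 := pow_le_pow_left₀ hσ0.le hσ2 3
    norm_num at this; linarith
  set ρ : ℝ := 1 - τ with hρ
  have hρ0 : 0 < ρ := by linarith
  have hρ1 : ρ ≤ 1 := by linarith
  have hρσ : 1 - ρ ≤ σ / 2 := by rw [hρ]; linarith [min_le_left (σ / 2) (σ ^ 3 / 384)]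
  have hρ3 : 6 * (1 - ρ) / σ ^ 3 ≤ 1 / 64 := by
    rw [div_le_iff₀ (by positivity)]
    have : 1 - ρ = τ := by rw [hρ]; ring
    rw [this]
    have := min_le_right (σ / 2) (σ ^ 3 / 384)
    rw [← hτ] at this
    linarith
  -- the main function
  set φ : ℂ → ℂ := fun x => (-1 + I) * c * ((1 + (ρ:ℂ) * (c * x))⁻¹) ^ 2 with hφdef
  have hφ : DifferentiableOn ℂ φ (ball 0 (1 / ρ)) := by
    intro x hx
    apply DifferentiableAt.differentiableWithinAt
    have h1 := mem_bigball hρ0 hc hx
    have h2' : DifferentiableAt ℂ (fun x : ℂ => 1 + (ρ:ℂ) * (c * x)) x := by fun_prop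
    exact ((h2'.fun_inv h1).pow 2).const_mul _
  have h1r : 1 < 1 / ρ := by
    rw [lt_div_iff₀ hρ0]; linarith
  obtain ⟨m', Cm, hm1, hm2, hm3, hm4⟩ := sq_pack h1r hφ
  have hCm : 0 ≤ Cm := (norm_nonneg _).trans (hm2 0 (by simp))
  set K2 : ℝ := 8 / σ ^ 2 with hK2
  have hK20 : 0 < K2 := by positivity
  have hK22 : 2 ≤ K2 := by
    rw [hK2, le_div_iff₀ (by positivity)]; nlinarith
  set θ : ℝ := 1 / (32 * K2) with hθdef
  have hθ0 : 0 < θ := by positivity
  have hθK : K2 * θ = 1 / 32 := by rw [hθdef]; field_simp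
  have hθh : θ ≤ 1 / 2 := by nlinarith
  set Cs : ℝ := (Cm + 1) / K2 + 1 with hCs
  have hCs1 : 1 ≤ Cs := by
    have : 0 ≤ (Cm + 1) / K2 := by positivity
    linarith
  have hCsK : Cm + 1 ≤ Cs * K2 := by
    rw [hCs, add_mul, div_mul_cancel₀ _ hK20.ne']; linarith
  -- the choice of N0
  have ht1 : Tendsto (fun i => 12 * ∑' k, a (k + i)) atTop (𝓝 0) := by
    simpa using (tendsto_sum_nat_add a).const_mul 12
  have ht3 : Tendsto (fun n => (1 - ‖z n‖ ^ 2) * (1 / σ ^ 2 + 1 / σ ^ 3)) atTop (𝓝 0) := by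
    have := ((hlim.pow 2).const_sub 1).mul_const (1 / σ ^ 2 + 1 / σ ^ 3)
    simpa using this
  obtain ⟨N0, hN1, hN⟩ : ∃ N0 : ℕ, 1 ≤ N0 ∧ ∀ n, N0 ≤ n → 12 * ∑' k, a (k + n) < θ / 2 ∧
      7 < L n ∧ (1 - ‖z n‖ ^ 2) * (1 / σ ^ 2 + 1 / σ ^ 3) < 1 / 64 ∧ 1 / 2 < ‖z n‖ := by
    have h1 := ht1.eventually (gt_mem_nhds (show (0:ℝ) < θ / 2 by positivity))
    have h2 := htL.eventually_gt_atTop 7
    have h3 := ht3.eventually (gt_mem_nhds (show (0:ℝ) < 1 / 64 by norm_num))
    have h4 := hlim.eventually (lt_mem_nhds (show (1:ℝ) / 2 < 1 by norm_num))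
    obtain ⟨N, hN⟩ := eventually_atTop.mp (h1.and (h2.and (h3.and h4)))
    exact ⟨N + 1, by omega, fun n hn => hN n (by omega)⟩
  set η : ℝ := θ / (2 * (N0 + 1) * Cs) with hη
  have hη0 : 0 < η := by positivity
  choose e e' Ce he1 he2 he3 he4 he5 he6 using
    fun j => badfun hz hinj hlim hc hσ0 hσ j hη0
  have hCe : ∀ n, 0 ≤ Ce n := fun n => (norm_nonneg _).trans (he2 n 0 (by simp))
  -- tail denominators
  have hDr : ∀ n, N0 ≤ n → L n / 2 ≤ Dr (z n) := by
    intro n hn
    have h7 := (hN n hn).2.1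
    have hzn := hz n
    have hznn := norm_nonneg (z n)
    have e1 : L n = Real.log 4 - Real.log (1 - ‖z n‖) := by
      rw [hLdef]; exact Real.log_div (by norm_num) (by linarith)
    have e2 : Real.log (1 - ‖z n‖ ^ 2) ≤ Real.log 2 + Real.log (1 - ‖z n‖) := by
      rw [← Real.log_mul (by norm_num) (by linarith)]
      apply Real.log_le_log (by nlinarith)
      nlinarith
    have e3 : Real.log 4 = 2 * Real.log 2 := by
      rw [show (4:ℝ) = 2 ^ 2 by norm_num, Real.log_pow]; norm_num
    have e4 : Real.log 2 < 0.7 := by linarith [Real.log_two_lt_d9]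
    unfold Dr
    have e5 : ‖z n‖ ^ 2 ≤ 1 := by nlinarith
    linarith
  have hDr0 : ∀ n, N0 ≤ n → 0 < Dr (z n) := by
    intro n hn
    have := hDr n hn
    have := hL n
    linarith
  -- the functions
  let E : ℕ → ℂ → ℂ := fun n x => if n < N0 then (Cs:ℂ) * e n x else lam (z n) x / (Dr (z n) : ℂ)
  let E' : ℕ → ℂ → ℂ := fun n x =>
    if n < N0 then (Cs:ℂ) * e' n x else conj (z n) * (uu (z n) x - 1) / (Dr (z n) : ℂ)
  let t : ℕ → ℂ := fun m => (z m) ^ 2 * φ (z m) + if m = 0 then 1 else 0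
  let q : ℕ → ℂ := fun m => if m < N0 then (Cs:ℂ) else 1
  let T : ℕ → ℕ → ℂ := fun m n => if n = m then 0 else E n (z m) / q m
  let β : ℕ → ℝ := fun n => if n < N0 then Cs * η else 12 * a n
  have hmem : ∀ n, z n ∈ ball (0:ℂ) 1 := fun n => by simpa using hz n
  have hqn : ∀ m, 1 ≤ ‖q m‖ := by
    intro m
    simp only [q]
    split_ifs
    · rw [Complex.norm_real, Real.norm_eq_abs, abs_of_pos (by linarith)]; exact hCs1
    · simp
  have hq0 : ∀ m, q m ≠ 0 := by
    intro m h
    have := hqn m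
    rw [h] at this; simp at this; linarith
  have hEb : ∀ n m, n ≠ m → ‖E n (z m)‖ ≤ β n := by
    intro n m hnm
    simp only [E, β]
    split_ifs with h
    · rw [norm_mul, Complex.norm_real, Real.norm_eq_abs, abs_of_pos (by linarith)]
      exact mul_le_mul_of_nonneg_left (he6 n m (Ne.symm hnm)) (by linarith)
    · push Not at h
      rw [norm_div, Complex.norm_real, Real.norm_eq_abs, abs_of_pos (hDr0 n h)]
      rw [div_le_iff₀ (hDr0 n h)]
      have h1 := lam_norm_le (hz n) (hz m) (hd n) (hsep m n (Ne.symm hnm))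
      have h2 := hDr n h
      have h3 := hL n
      have h4 : Real.log (4 / d n) = a n * L n := by
        show Real.log (4 / d n) = Real.log (4 / d n) / L n * L n
        rw [div_mul_cancel₀ _ (ne_of_gt (show 0 < L n from h3))]
      have h5 : 0 ≤ a n := by
        rw [hadef]
        have := hl n
        have h6 : 0 < Real.log 2 := Real.log_pos (by norm_num)
        exact div_nonneg (by linarith) h3.le
      calc ‖lam (z n) (z m)‖ ≤ 6 * Real.log (4 / d n) := h1
        _ = 12 * a n * (L n / 2) := by rw [h4]; ring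
        _ ≤ 12 * a n * Dr (z n) := mul_le_mul_of_nonneg_left h2 (by positivity)
  have hβs : Summable β := summable_ite' (hsum.mul_left 12)
  have hβ0 : ∀ n, 0 ≤ β n := fun n => (norm_nonneg _).trans (hEb n (n + 1) (by omega))
  have hβt : ∑' n, β n ≤ θ := by
    have h1 : ∑' n, β n = N0 * (Cs * η) + ∑' k, 12 * a (k + N0) := tsum_ite' (hsum.mul_left 12)
    rw [h1, tsum_mul_left]
    have h2 := (hN N0 le_rfl).1
    have h3 : N0 * (Cs * η) ≤ θ / 2 := by
      rw [hη]
      have e1 : (N0:ℝ) * (Cs * (θ / (2 * (N0 + 1) * Cs))) = θ / 2 * (N0 / (N0 + 1)) := by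
        field_simp
      rw [e1]
      have e2 : (N0:ℝ) / (N0 + 1) ≤ 1 := by
        rw [div_le_one (by positivity)]; linarith
      nlinarith
    linarith
  have hTb : ∀ m n, ‖T m n‖ ≤ β n := by
    intro m n
    simp only [T]
    split_ifs with h
    · simpa using hβ0 n
    · rw [norm_div]
      refine (div_le_self (norm_nonneg _) (hqn m)).trans (hEb n m h)
  have hTs : ∀ m, Summable fun n => ‖T m n‖ := fun m =>
    Summable.of_nonneg_of_le (fun n => norm_nonneg _) (hTb m) hβs
  have hTt : ∀ m, ∑' n, ‖T m n‖ ≤ θ := fun m =>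
    ((hTs m).tsum_le_tsum (hTb m) hβs).trans hβt
  -- the size of the target
  have hAn : ∀ m, ‖(1 + (ρ:ℂ) * (c * z m))⁻¹‖ ≤ 2 / σ := by
    intro m
    have h1 := low_rho hρσ hρ1 (y := c * z m) (by rw [hcn]; exact (hz m).le) (hσ m)
    rw [norm_inv, ← one_div]
    calc 1 / ‖1 + (ρ:ℂ) * (c * z m)‖ ≤ 1 / (σ / 2) := one_div_le_one_div_of_le (by positivity) h1
      _ = 2 / σ := by field_simp
  have hI2 : ‖(-1 + I : ℂ)‖ ≤ 2 := by
    refine (norm_add_le _ _).trans ?_
    rw [norm_neg, norm_one, Complex.norm_I]; norm_num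
  have hrb : ∀ m, ‖t m / q m‖ ≤ K2 := by
    intro m
    rw [norm_div]
    by_cases h : m < N0
    · have h1 : ‖t m‖ ≤ Cm + 1 := by
        simp only [t]
        refine (norm_add_le _ _).trans (add_le_add (hm4 _ (hmem m)) ?_)
        split_ifs <;> simp
      have h2 : ‖q m‖ = Cs := by
        simp only [q]
        rw [if_pos h, Complex.norm_real, Real.norm_eq_abs, abs_of_pos (by linarith)]
      rw [h2, div_le_iff₀ (by linarith)]
      linarith [mul_comm Cs K2]
    · have h2 : q m = 1 := by simp only [q]; rw [if_neg h]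
      have h3 : m ≠ 0 := by omega
      rw [h2, norm_one, div_one]
      simp only [t, if_neg h3, add_zero, hφdef]
      rw [norm_mul, norm_mul, norm_mul, norm_pow, norm_pow, hc, mul_one]
      have h4 := hAn m
      have h5 : ‖z m‖ ^ 2 ≤ 1 := pow_le_one₀ (norm_nonneg _) (hz m).le
      calc ‖z m‖ ^ 2 * (‖(-1 + I : ℂ)‖ * ‖(1 + (ρ:ℂ) * (c * z m))⁻¹‖ ^ 2)
          ≤ 1 * (2 * (2 / σ) ^ 2) := by
            apply mul_le_mul h5 _ (by positivity) (by norm_num)
            exact mul_le_mul hI2 (pow_le_pow_left₀ (norm_nonneg _) h4 2) (by positivity) (by norm_num)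
        _ = K2 := by rw [hK2]; ring
  obtain ⟨v, hv1, hv2, hv3⟩ := neumann T (fun m => t m / q m) hθ0.le hθh hTs hTt hrb
  -- the rows
  have hE0 : ∀ n, E n 0 = 0 := by
    intro n
    simp only [E]
    split_ifs
    · rw [he4]; simp
    · rw [lam_zero]; simp
  have hrow : ∀ m, ∑' n, v n * E n (z m) = t m := by
    intro m
    by_cases hm : z m = 0
    · have hm0 : m ≠ 0 := by rintro rfl; exact hz0 hm
      simp only [t, hm, hE0, if_neg hm0]
      simp
    · have hd1 : E m (z m) = q m := by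
        simp only [E, q]
        split_ifs with h
        · rw [he5 m hm, mul_one]
        · push Not at h
          rw [lam_self (hz m)]
          exact div_self (by exact_mod_cast (hDr0 m h).ne')
      have hsm : Summable fun n => v n * E n (z m) := by
        apply Summable.of_norm_bounded
          (g := fun n => 2 * K2 * (β n + if n = m then ‖E m (z m)‖ else 0))
        · apply Summable.mul_left
          exact hβs.add (hasSum_ite_eq m _).summable
        · intro n
          rw [norm_mul]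
          apply mul_le_mul (hv1 n) _ (norm_nonneg _) (by positivity)
          by_cases h : n = m
          · subst h; simp only [if_true]; linarith [hβ0 n]
          · rw [if_neg h, add_zero]; exact hEb n m h
      rw [hsm.tsum_eq_add_tsum_ite m, hd1]
      have h2 := hv3 m
      have h3 : (∑' n, if n = m then 0 else v n * E n (z m)) = q m * ∑' n, T m n * v n := by
        rw [← tsum_mul_left]
        congr 1; funext n
        simp only [T]
        split_ifs
        · simp
        · have := hq0 m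
          field_simp
      rw [h3]
      have h4 : t m = q m * (t m / q m) := by
        rw [mul_div_cancel₀ _ (hq0 m)]
      rw [h4, ← h2]; ring
  -- the difference function
  let h : ℂ → ℂ := fun x => -(x ^ 2 * φ x) + ∑' n, v n * E n x
  let w : ℕ → ℂ := fun n => if n < N0 then 0 else v n * conj (z n) / (Dr (z n) : ℂ)
  let A : ℕ → ℂ → ℂ := fun n x => if n < N0 then v n * ((Cs:ℂ) * e' n x) else -w n
  let R : ℂ → ℂ := fun x => -m' x + ∑' n, A n x
  have hdec : ∀ n x, v n * E' n x = A n x + w n * uu (z n) x := by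
    intro n x
    simp only [E', A, w]
    split_ifs
    · simp
    · ring
  have hDrinv : ∀ n, N0 ≤ n → 1 / Dr (z n) ≤ 2 * (1 / L n) := by
    intro n hn
    have h1 := hDr n hn
    have h2 := hL n
    calc 1 / Dr (z n) ≤ 1 / (L n / 2) := one_div_le_one_div_of_le (by positivity) h1
      _ = 2 * (1 / L n) := by field_simp
  have hwb : ∀ n, ‖w n‖ ≤ 2 * K2 * (2 * (1 / L n)) := by
    intro n
    have h2 := hL n
    simp only [w]
    split_ifs with h
    · simp; positivity
    · push Not at h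
      rw [norm_div, norm_mul, RCLike.norm_conj, Complex.norm_real, Real.norm_eq_abs,
        abs_of_pos (hDr0 n h), div_eq_mul_one_div]
      have h3 : ‖v n‖ * ‖z n‖ ≤ 2 * K2 := by
        have := hv1 n
        nlinarith [hz n, norm_nonneg (z n), norm_nonneg (v n)]
      exact mul_le_mul h3 (hDrinv n h) (by have := hDr0 n h; positivity) (by positivity)
  have hws : Summable fun n => ‖w n‖ :=
    Summable.of_nonneg_of_le (fun n => norm_nonneg _) hwb ((hs1.mul_left 2).mul_left _)
  -- bounds for A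
  let α : ℕ → ℝ := fun n => if n < N0 then 2 * K2 * (Cs * Ce n) else ‖w n‖
  have hαs : Summable α := summable_ite' hws
  have hAb : ∀ x ∈ ball (0:ℂ) 1, ∀ n, ‖A n x‖ ≤ α n := by
    intro x hx n
    simp only [A, α]
    split_ifs
    · rw [norm_mul, norm_mul, Complex.norm_real, Real.norm_eq_abs, abs_of_pos (by linarith)]
      apply mul_le_mul (hv1 n) _ (by positivity) (by positivity)
      exact mul_le_mul_of_nonneg_left (he2 n x hx) (by linarith)
    · rw [norm_neg]
  have hAs : ∀ x ∈ ball (0:ℂ) 1, Summable fun n => A n x := fun x hx =>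
    Summable.of_norm_bounded hαs (hAb x hx)
  have hus : ∀ x ∈ ball (0:ℂ) 1, Summable fun n => w n * uu (z n) x := by
    intro x hx
    have hx1 : ‖x‖ < 1 := by simpa using hx
    apply Summable.of_norm_bounded (g := fun n => ‖w n‖ * (1 / (1 - ‖x‖))) (hws.mul_right _)
    intro n
    rw [norm_mul]
    exact mul_le_mul_of_nonneg_left (uu_norm_le (hz n) hx1) (norm_nonneg _)
  have hRb : ∀ x ∈ ball (0:ℂ) 1, ‖R x‖ ≤ Cm + ∑' n, α n := by
    intro x hx
    refine (norm_add_le _ _).trans (add_le_add ?_ ?_)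
    · rw [norm_neg]; exact hm2 x hx
    · exact tsum_of_norm_bounded hαs.hasSum (hAb x hx)
  have hsplit : ∀ x ∈ ball (0:ℂ) 1, -m' x + ∑' n, v n * E' n x = R x + ∑' n, w n * uu (z n) x := by
    intro x hx
    simp only [R, hdec]
    rw [Summable.tsum_add (hAs x hx) (hus x hx)]
    ring
  have hhd : ∀ x ∈ ball (0:ℂ) 1, HasDerivAt h (R x + ∑' n, w n * uu (z n) x) x := by
    intro x hx
    rw [← hsplit x hx]
    apply (hm1 x hx).neg.add
    apply hasDeriv_tsum (g := fun n x => v n * E n x) (g' := fun n x => v n * E' n x) _ _ _ hx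
    · intro n y hy
      have hy1 : ‖y‖ < 1 := by simpa using hy
      apply HasDerivAt.const_mul
      by_cases hn : n < N0
      · have e1 : E n = fun x => (Cs:ℂ) * e n x := by funext x; simp only [E, if_pos hn]
        have e2 : E' n y = (Cs:ℂ) * e' n y := by simp only [E', if_pos hn]
        rw [e1, e2]
        exact (he1 n y hy).const_mul _
      · have e1 : E n = fun x => lam (z n) x / (Dr (z n) : ℂ) := by funext x; simp only [E, if_neg hn]
        have e2 : E' n y = conj (z n) * (uu (z n) y - 1) / (Dr (z n) : ℂ) := by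
          simp only [E', if_neg hn]
        rw [e1, e2]
        exact (lam_hasDeriv (hz n) hy1).div_const _
    · intro r hr0 hr1
      refine ⟨fun n => α n + ‖w n‖ * (1 / (1 - r)), hαs.add (hws.mul_right _), ?_⟩
      intro n y hy
      have hyr : ‖y‖ < r := by simpa using hy
      have hy1 : y ∈ ball (0:ℂ) 1 := by simp; linarith
      show ‖v n * E' n y‖ ≤ _
      rw [hdec]
      refine (norm_add_le _ _).trans (add_le_add (hAb y hy1 n) ?_)
      rw [norm_mul]
      apply mul_le_mul_of_nonneg_left _ (norm_nonneg _)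
      refine (uu_norm_le (hz n) (hyr.trans hr1)).trans ?_
      exact one_div_le_one_div_of_le (by linarith) (by linarith)
    · intro n
      show v n * E n 0 = 0
      rw [hE0, mul_zero]
  -- signs
  have hsign : ∀ n, (w n).re ≤ 0 ∧ 0 ≤ (w n).im := by
    intro n
    simp only [w]
    split_ifs with hn
    · simp
    · push Not at hn
      have hn0 : n ≠ 0 := by omega
      set D := Dr (z n) with hD
      have hD0 : 0 < D := hDr0 n hn
      set s : ℂ := v n * conj (z n) * ((-1 - I) / 2) with hs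
      have e1 : v n * conj (z n) = (-1 + I) * s := by
        rw [hs]
        linear_combination (v n * conj (z n)) * (1 / 2 : ℂ) * Complex.I_mul_I
      set y : ℂ := c * z n with hy
      have hyn : ‖y‖ = ‖z n‖ := hcn n
      have hmc := main_close (ρ := ρ) (A := (1 + (ρ:ℂ) * y)⁻¹) hσ0 hρ1 (by rw [hyn]; exact (hz n).le)
        (hσ n) (hAn n) (inv_close hσ0 hρσ hρ1 (by rw [hyn]; exact (hz n).le) (hσ n)) hρ3
        (by rw [hyn]; exact (hN n hn).2.2.1.le)
      set κ : ℝ := 1 / ‖1 + y‖ ^ 2 with hκ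
      have hκ4 : 1 / 4 ≤ κ := by
        rw [hκ]
        have h1 : σ ≤ ‖1 + y‖ := hσ n
        have h2 : ‖1 + y‖ ≤ 2 := by
          refine (norm_add_le _ _).trans ?_
          rw [norm_one, hyn]; linarith [hz n]
        have h3 : 0 < ‖1 + y‖ := lt_of_lt_of_le hσ0 h1
        apply one_div_le_one_div_of_le (by positivity)
        nlinarith [norm_nonneg (1 + y)]
      have hq1 : q n = 1 := by simp only [q]; rw [if_neg (by omega)]
      have ht1 : t n / q n = (z n) ^ 2 * φ (z n) := by
        rw [hq1, div_one]; simp only [t, if_neg hn0, add_zero]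
      have hv2' := hv2 n
      simp only [ht1] at hv2'
      have hzz : z n * conj (z n) = ((‖y‖ ^ 2 : ℝ) : ℂ) := by
        rw [Complex.mul_conj, Complex.normSq_eq_norm_sq, hyn]
      have e2 : s - (κ : ℂ) = (v n - (z n) ^ 2 * φ (z n)) * conj (z n) * ((-1 - I) / 2)
          + (((‖y‖ ^ 2 : ℝ) : ℂ) * y * ((1 + (ρ:ℂ) * y)⁻¹) ^ 2 - (κ : ℂ)) := by
        rw [hs, ← hzz]
        simp only [hφdef]
        rw [← hy]
        set Q := (1 + (ρ:ℂ) * y)⁻¹
        rw [hy]
        linear_combination (-(z n) ^ 2 * c * Q ^ 2 * conj (z n) * (1 / 2 : ℂ)) * Complex.I_mul_I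
      have hI3 : ‖((-1 - I) / 2 : ℂ)‖ ≤ 1 := by
        rw [norm_div]
        have : ‖(-1 - I : ℂ)‖ ≤ 2 := by
          refine (norm_sub_le _ _).trans ?_
          rw [norm_neg, norm_one, Complex.norm_I]; norm_num
        rw [div_le_one (by simp)]
        simpa using this
      have e3 : ‖(v n - (z n) ^ 2 * φ (z n)) * conj (z n) * ((-1 - I) / 2)‖ ≤ 1 / 16 := by
        rw [norm_mul, norm_mul, RCLike.norm_conj]
        have h1 : ‖v n - (z n) ^ 2 * φ (z n)‖ ≤ 1 / 16 := by
          refine hv2'.trans ?_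
          have : 2 * K2 * θ = 2 * (K2 * θ) := by ring
          rw [this, hθK]; norm_num
        calc ‖v n - (z n) ^ 2 * φ (z n)‖ * ‖z n‖ * ‖((-1 - I) / 2 : ℂ)‖ ≤ (1 / 16) * 1 * 1 := by
              apply mul_le_mul _ hI3 (norm_nonneg _) (by norm_num)
              exact mul_le_mul h1 (hz n).le (norm_nonneg _) (by norm_num)
          _ = 1 / 16 := by norm_num
      have e4 : ‖s - (κ : ℂ)‖ ≤ 3 / 32 := by
        rw [e2]
        refine (norm_add_le _ _).trans ?_
        linarith
      have e5 := (Complex.abs_re_le_norm (s - (κ:ℂ))).trans e4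
      have e6 := (Complex.abs_im_le_norm (s - (κ:ℂ))).trans e4
      simp only [Complex.sub_re, Complex.sub_im, Complex.ofReal_re, Complex.ofReal_im, sub_zero] at e5 e6
      rw [abs_le] at e5 e6
      rw [e1]
      have e7 : ((-1 + I) * s / (D:ℂ)).re = (-s.re - s.im) / D := by
        rw [Complex.div_ofReal_re]; congr 1; simp <;> ring
      have e8 : ((-1 + I) * s / (D:ℂ)).im = (s.re - s.im) / D := by
        rw [Complex.div_ofReal_im]; congr 1; simp <;> ring
      rw [e7, e8]
      constructor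
      · apply div_nonpos_of_nonpos_of_nonneg _ hD0.le
        linarith [e5.1, e6.1]
      · apply div_nonneg _ hD0.le
        linarith [e5.1, e6.2]
  have hz00 : ∀ n, w n ≠ 0 → z n ≠ 0 := by
    intro n hw hzn
    apply hw
    simp only [w]
    split_ifs
    · rfl
    · rw [hzn]; simp
  have hh0 : h 0 = 0 := by
    simp only [h, hE0]; simp
  have hR0 : R 0 + ∑' n, w n * uu (z n) 0 = 0 := by
    rw [← hsplit 0 (by simp), hm3]
    have : ∀ n, v n * E' n 0 = 0 := by
      intro n
      simp only [E']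
      split_ifs
      · rw [he3]; simp
      · simp [uu]
    simp only [this]; simp
  obtain ⟨f, g, κ, hf, hg, hκ, hfg⟩ := assemble hz hz00 hws (fun n => (hsign n).1)
    (fun n => (hsign n).2) hRb hhd hh0 hR0
  have hhz : ∀ m, h (z m) = if m = 0 then 1 else 0 := by
    intro m
    simp only [h, hrow m, t]
    ring
  refine ⟨f, g, hf, hg, ?_, ?_⟩
  · intro he
    have h1 := hfg (z 0)
    rw [hhz 0, if_pos rfl, he, sub_self] at h1
    exact (one_div_ne_zero hκ) h1.symm
  · intro n hn
    have h1 := hfg (z n)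
    rw [hhz n, if_neg hn, zero_div] at h1
    exact sub_eq_zero.mp h1

end Pool.Agent.Run7.h104.Coin
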