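import Mathlib
import Pool.Agent.Run7.h104.Coin.P5

set_option autoImplicit false

open Complex Metric Set Filter Topology ComplexConjugate

namespace Pool.Agent.Run7.h104.Coin

/-- A point of the circle away from the sequence. -/
lemma free_point {z : ℕ → ℂ} (hz : ∀ n, ‖z n‖ < 1)
    {d : ℕ → ℝ} (hd : ∀ n, 0 < d n) (hsep : ∀ m n, m ≠ n → d n ≤ ‖1 - conj (z n) * z m‖)
    (hsum : Summable fun n => Real.log (4 / d n) / Real.log (4 / (1 - ‖z n‖))) :
    ∃ c : ℂ, ‖c‖ = 1 ∧ ∃ σ : ℝ, 0 < σ ∧ ∀ n, σ ≤ ‖1 + c * z n‖ := by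
  obtain ⟨hL, hl, _, _, hlim⟩ := prelim hz hd hsep hsum
  have h1 := hsum.tendsto_atTop_zero.eventually (gt_mem_nhds (show (0:ℝ) < 1 / 2 by norm_num))
  have h2 := hlim.eventually (lt_mem_nhds (show (1:ℝ) / 2 < 1 by norm_num))
  obtain ⟨k, hk1, hk2⟩ := (h1.and h2).exists
  have hd2 : d k ≤ 2 := by
    have h3 := hsep (k + 1) k (by omega)
    have h4 : ‖1 - conj (z k) * z (k + 1)‖ ≤ 2 := by
      refine (norm_sub_le _ _).trans ?_
      rw [norm_mul, RCLike.norm_conj, norm_one]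
      nlinarith [hz k, hz (k + 1), norm_nonneg (z k), norm_nonneg (z (k + 1))]
    linarith
  have hzk : 0 < 1 - ‖z k‖ := by linarith [hz k]
  have hdk := hd k
  have h3 : 1 - ‖z k‖ < d k / 2 := by
    rw [div_lt_iff₀ (hL k)] at hk1
    have h5 : Real.log ((4 / d k) ^ 2) < Real.log (4 / (1 - ‖z k‖)) := by
      rw [Real.log_pow]; push_cast; linarith
    have h6 : (4 / d k) ^ 2 < 4 / (1 - ‖z k‖) :=
      (Real.log_lt_log_iff (by positivity) (by positivity)).mp h5
    rw [lt_div_iff₀ hzk, div_pow, div_mul_eq_mul_div, div_lt_iff₀ (by positivity)] at h6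
    nlinarith
  have hnz : ‖z k‖ ≠ 0 := by linarith
  set ω : ℂ := z k / (‖z k‖ : ℂ) with hω
  have hωn : ‖ω‖ = 1 := by
    rw [hω, norm_div, Complex.norm_real, norm_norm, div_self hnz]
  have hωz : ‖conj ω - conj (z k)‖ = 1 - ‖z k‖ := by
    rw [← map_sub, RCLike.norm_conj]
    have : ω - z k = ω * ((1 - ‖z k‖ : ℝ) : ℂ) := by
      rw [hω]; push_cast
      have : (‖z k‖ : ℂ) ≠ 0 := by exact_mod_cast hnz
      field_simp
    rw [this, norm_mul, hωn, one_mul, Complex.norm_real, Real.norm_eq_abs, abs_of_pos hzk]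
  refine ⟨-conj ω, by rw [norm_neg, RCLike.norm_conj, hωn], min (1 - ‖z k‖) (d k / 2),
    lt_min hzk (by positivity), ?_⟩
  intro m
  by_cases hm : m = k
  · subst hm
    refine (min_le_left _ _).trans ?_
    have h7 : ‖(1:ℂ)‖ - ‖conj ω * z m‖ ≤ ‖1 - conj ω * z m‖ := norm_sub_norm_le _ _
    rw [norm_mul, RCLike.norm_conj, hωn, norm_one, one_mul] at h7
    have e : (1:ℂ) + -conj ω * z m = 1 - conj ω * z m := by ring
    rw [e]; exact h7
  · refine (min_le_right _ _).trans ?_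
    have h8 := hsep m k hm
    have e : (1:ℂ) - conj (z k) * z m = (1 + -conj ω * z m) + (conj ω - conj (z k)) * z m := by ring
    rw [e] at h8
    have h9 : ‖(conj ω - conj (z k)) * z m‖ ≤ 1 - ‖z k‖ := by
      rw [norm_mul, hωz]
      nlinarith [hz m, norm_nonneg (z m)]
    have h10 := norm_add_le (1 + -conj ω * z m) ((conj ω - conj (z k)) * z m)
    linarith

theorem coincidence {z : ℕ → ℂ} (hz : ∀ n, ‖z n‖ < 1) (hinj : Function.Injective z)
    {d : ℕ → ℝ} (hd : ∀ n, 0 < d n) (hsep : ∀ m n, m ≠ n → d n ≤ ‖1 - conj (z n) * z m‖)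
    (hsum : Summable fun n => Real.log (4 / d n) / Real.log (4 / (1 - ‖z n‖))) :
    ∃ f g : ℂ → ℂ, ClassS f ∧ ClassS g ∧ (∃ x ∈ ball (0:ℂ) 1, f x ≠ g x) ∧
      ∀ n, f (z n) = g (z n) := by
  -- a new point
  obtain ⟨b, hb1, hb2⟩ : ∃ b : ℂ, ‖b‖ < 1 ∧ b ∉ insert (0:ℂ) (range z) := by
    have hcount : (insert (0:ℂ) (range z)).Countable := (countable_range z).insert 0
    have hdense : Dense (insert (0:ℂ) (range z))ᶜ := hcount.dense_compl ℝ
    obtain ⟨b, hb, hb'⟩ := hdense.exists_mem_open (isOpen_ball (x := (0:ℂ)) (ε := 1)) ⟨0, by simp⟩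
    exact ⟨b, by simpa using hb', hb⟩
  have hb0 : b ≠ 0 := fun h => hb2 (by simp [h])
  have hbz : ∀ n, b ≠ z n := fun n h => hb2 (Or.inr ⟨n, h.symm⟩)
  obtain ⟨hL, hl, hs1, _, _⟩ := prelim hz hd hsep hsum
  set κ : ℝ := 1 - ‖b‖ with hκ
  have hκ0 : 0 < κ := by linarith
  have hκ1 : κ ≤ 1 := by linarith [norm_nonneg b]
  let z' : ℕ → ℂ := fun n => if n = 0 then b else z (n - 1)
  let d' : ℕ → ℝ := fun n => if n = 0 then κ else min (d (n - 1)) κ
  have hz' : ∀ n, ‖z' n‖ < 1 := by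
    intro n; simp only [z']; split_ifs
    · exact hb1
    · exact hz _
  have hinj' : Function.Injective z' := by
    intro m n hmn
    simp only [z'] at hmn
    split_ifs at hmn with h1 h2 h2
    · omega
    · exact absurd hmn (hbz _)
    · exact absurd hmn.symm (hbz _)
    · have := hinj hmn; omega
  have hd' : ∀ n, 0 < d' n := by
    intro n; simp only [d']; split_ifs
    · exact hκ0
    · exact lt_min (hd _) hκ0
  have hk : ∀ x y : ℂ, ‖x‖ < 1 → ‖y‖ < 1 → (x = b ∨ y = b) → κ ≤ ‖1 - conj x * y‖ := by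
    intro x y hx hy hxy
    have h7 : ‖(1:ℂ)‖ - ‖conj x * y‖ ≤ ‖1 - conj x * y‖ := norm_sub_norm_le _ _
    rw [norm_mul, RCLike.norm_conj, norm_one] at h7
    refine le_trans ?_ h7
    rcases hxy with h | h
    · rw [hκ, ← h]; nlinarith [norm_nonneg x, norm_nonneg y]
    · rw [hκ, ← h]; nlinarith [norm_nonneg x, norm_nonneg y]
  have hsep' : ∀ m n, m ≠ n → d' n ≤ ‖1 - conj (z' n) * z' m‖ := by
    intro m n hmn
    by_cases hn : n = 0
    · have h1 : d' n = κ := by simp only [d', if_pos hn]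
      rw [h1]
      exact hk _ _ (hz' n) (hz' m) (Or.inl (by simp only [z', if_pos hn]))
    · have h1 : d' n = min (d (n - 1)) κ := by simp only [d', if_neg hn]
      rw [h1]
      by_cases hm : m = 0
      · refine (min_le_right _ _).trans ?_
        exact hk _ _ (hz' n) (hz' m) (Or.inr (by simp only [z', if_pos hm]))
      · refine (min_le_left _ _).trans ?_
        have h2 : z' n = z (n - 1) := by simp only [z', if_neg hn]
        have h3 : z' m = z (m - 1) := by simp only [z', if_neg hm]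
        rw [h2, h3]
        exact hsep _ _ (by omega)
  have hlk : 0 ≤ Real.log (4 / κ) := by
    apply Real.log_nonneg
    rw [le_div_iff₀ hκ0]; linarith
  have hl0 : ∀ n, 0 < Real.log (4 / d n) := fun n =>
    lt_of_lt_of_le (Real.log_pos (by norm_num)) (hl n)
  have hsum' : Summable fun n => Real.log (4 / d' n) / Real.log (4 / (1 - ‖z' n‖)) := by
    rw [← summable_nat_add_iff 1]
    have hS : Summable fun n => Real.log (4 / d n) / Real.log (4 / (1 - ‖z n‖))
        + Real.log (4 / κ) * (1 / Real.log (4 / (1 - ‖z n‖))) := hsum.add (hs1.mul_left _)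
    have hmin : ∀ n, Real.log (4 / min (d n) κ) ≤ Real.log (4 / d n) + Real.log (4 / κ) := by
      intro n
      have := (hl0 n).le
      rcases min_choice (d n) κ with h | h
      · rw [h]; linarith
      · rw [h]; linarith
    apply Summable.of_nonneg_of_le _ _ hS
    · intro n
      simp only [d', z', Nat.add_eq_zero_iff, one_ne_zero, and_false, if_false, Nat.add_sub_cancel]
      apply div_nonneg _ (hL n).le
      apply Real.log_nonneg
      have hmp : 0 < min (d n) κ := lt_min (hd n) hκ0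
      rw [le_div_iff₀ hmp]
      have := min_le_right (d n) κ
      linarith
    · intro n
      simp only [d', z', Nat.add_eq_zero_iff, one_ne_zero, and_false, if_false, Nat.add_sub_cancel]
      rw [mul_one_div, ← add_div]
      exact div_le_div_of_nonneg_right (hmin n) (hL n).le
  obtain ⟨c, hc, σ, hσ0, hσ⟩ := free_point hz' hd' hsep' hsum'
  obtain ⟨f, g, hf, hg, h1, h2⟩ := core hz' hinj' (by simp only [z', if_true]; exact hb0) hd' hsep' hsum'
    hc hσ0 hσ
  refine ⟨f, g, hf, hg, ⟨z' 0, by simpa using hz' 0, h1⟩, ?_⟩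
  intro n
  have := h2 (n + 1) (by omega)
  simpa [z'] using this

/-- Radii. -/
theorem radii {ζ : ℕ → ℂ} (hζ : ∀ n, ‖ζ n‖ = 1) (hiso : ∀ n, ∃ p : ℝ, 0 < p ∧ ∀ m, m ≠ n → p ≤ ‖ζ m - ζ n‖) :
    ∃ s : ℕ → ℝ, (∀ n, s n < 1) ∧ ∀ r : ℕ → ℝ, (∀ n, s n ≤ r n ∧ r n < 1) →
      (∀ n, ‖(r n : ℂ) * ζ n‖ < 1) ∧ (Function.Injective fun n => (r n : ℂ) * ζ n) ∧
      ∃ f g : ℂ → ℂ, ClassS f ∧ ClassS g ∧ (∃ x ∈ ball (0:ℂ) 1, f x ≠ g x) ∧
      ∀ n, f ((r n : ℂ) * ζ n) = g ((r n : ℂ) * ζ n) := by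
  choose p hp0 hp using hiso
  let d : ℕ → ℝ := fun n => min (p n) 1 / 2
  have hd : ∀ n, 0 < d n := fun n => div_pos (lt_min (hp0 n) one_pos) (by norm_num)
  have hd1 : ∀ n, d n ≤ 1 / 2 := fun n => by
    have := min_le_right (p n) 1
    simp only [d]; linarith
  let ℓ : ℕ → ℝ := fun n => Real.log (4 / d n)
  have hℓ : ∀ n, 0 < ℓ n := by
    intro n
    apply Real.log_pos
    rw [lt_div_iff₀ (hd n)]; linarith [hd1 n]
  refine ⟨fun n => max (1 / 2) (1 - 4 * Real.exp (-(2 ^ n * ℓ n))), ?_, ?_⟩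
  · intro n
    apply max_lt (by norm_num)
    have := Real.exp_pos (-(2 ^ n * ℓ n))
    linarith
  · intro r hr
    have hr0 : ∀ n, 1 / 2 ≤ r n := fun n => (le_max_left _ _).trans (hr n).1
    have hr1 : ∀ n, r n < 1 := fun n => (hr n).2
    have hnorm : ∀ n, ‖(r n : ℂ) * ζ n‖ = r n := by
      intro n
      rw [norm_mul, hζ, mul_one, Complex.norm_real, Real.norm_eq_abs, abs_of_nonneg (by linarith [hr0 n])]
    have hlt : ∀ n, ‖(r n : ℂ) * ζ n‖ < 1 := fun n => by rw [hnorm]; exact hr1 n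
    have hinj : Function.Injective fun n => (r n : ℂ) * ζ n := by
      intro m n hmn
      by_contra hne
      have h1 : (r m : ℂ) * ζ m = (r n : ℂ) * ζ n := hmn
      have h2 : r m = r n := by rw [← hnorm m, ← hnorm n, h1]
      rw [h2] at h1
      have h3 : (r n : ℂ) ≠ 0 := by
        have := hr0 n
        exact_mod_cast (by linarith : r n ≠ 0)
      have h4 := mul_left_cancel₀ h3 h1
      have h5 := hp n m hne
      rw [h4, sub_self, norm_zero] at h5
      linarith [hp0 n]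
    have hsep : ∀ m n, m ≠ n → d n ≤ ‖1 - conj ((r n : ℂ) * ζ n) * ((r m : ℂ) * ζ m)‖ := by
      intro m n hmn
      have h1 := hp n m hmn
      set u : ℂ := conj (ζ n) * ζ m with hu
      set t : ℝ := r n * r m with ht
      have hun : ‖u‖ = 1 := by rw [hu, norm_mul, RCLike.norm_conj, hζ, hζ, mul_one]
      have ht1 : t ≤ 1 := by
        rw [ht]; nlinarith [hr0 n, hr0 m, hr1 n, hr1 m]
      have ht0 : 0 ≤ t := by
        rw [ht]; exact mul_nonneg (by linarith [hr0 n]) (by linarith [hr0 m])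
      have e1 : conj ((r n : ℂ) * ζ n) * ((r m : ℂ) * ζ m) = (t : ℂ) * u := by
        rw [map_mul, Complex.conj_ofReal, ht, hu]; push_cast; ring
      rw [e1]
      have e2 : ‖ζ m - ζ n‖ = ‖1 - u‖ := by
        have h5 : conj (ζ n) * ζ n = 1 := by
          rw [mul_comm, Complex.mul_conj, Complex.normSq_eq_norm_sq, hζ]; simp
        have : 1 - u = -(conj (ζ n) * (ζ m - ζ n)) := by
          rw [hu, mul_sub, h5]; ring
        rw [this, norm_neg, norm_mul, RCLike.norm_conj, hζ, one_mul]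
      have e3 : ‖1 - u‖ ≤ 2 * ‖1 - (t:ℂ) * u‖ := by
        have h6 : (1:ℂ) - u = (1 - (t:ℂ) * u) + (-(((1 - t : ℝ) : ℂ)) * u) := by push_cast; ring
        have h7 : ‖(-(((1 - t : ℝ) : ℂ)) * u)‖ = 1 - t := by
          rw [norm_mul, norm_neg, hun, mul_one, Complex.norm_real, Real.norm_eq_abs,
            abs_of_nonneg (by linarith)]
        have h8 : ‖(1:ℂ)‖ - ‖(t:ℂ) * u‖ ≤ ‖1 - (t:ℂ) * u‖ := norm_sub_norm_le _ _
        rw [norm_mul, hun, mul_one, Complex.norm_real, Real.norm_eq_abs, abs_of_nonneg ht0, norm_one] at h8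
        rw [h6]
        refine (norm_add_le _ _).trans ?_
        rw [h7]; linarith
      have h9 := min_le_left (p n) 1
      simp only [d]
      linarith
    have hsum : Summable fun n => Real.log (4 / d n) / Real.log (4 / (1 - ‖(r n : ℂ) * ζ n‖)) := by
      have hgeo : Summable fun n : ℕ => ((1:ℝ) / 2) ^ n := summable_geometric_two
      have hkey : ∀ n, 2 ^ n * ℓ n ≤ Real.log (4 / (1 - r n)) := by
        intro n
        have h1 : 1 - r n ≤ 4 * Real.exp (-(2 ^ n * ℓ n)) := by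
          have := (le_max_right (1 / 2) (1 - 4 * Real.exp (-(2 ^ n * ℓ n)))).trans (hr n).1
          linarith
        have h2 : 0 < 1 - r n := by linarith [hr1 n]
        have h3 : Real.exp (2 ^ n * ℓ n) ≤ 4 / (1 - r n) := by
          rw [le_div_iff₀ h2]
          have h4 : Real.exp (2 ^ n * ℓ n) * Real.exp (-(2 ^ n * ℓ n)) = 1 := by
            rw [← Real.exp_add]; simp
          have h5 := mul_le_mul_of_nonneg_left h1 (Real.exp_pos (2 ^ n * ℓ n)).le
          nlinarith
        calc 2 ^ n * ℓ n = Real.log (Real.exp (2 ^ n * ℓ n)) := (Real.log_exp _).symm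
          _ ≤ _ := Real.log_le_log (Real.exp_pos _) h3
      apply Summable.of_nonneg_of_le _ _ hgeo
      · intro n
        rw [hnorm]
        apply div_nonneg (hℓ n).le
        have := hkey n
        have h6 : 0 ≤ 2 ^ n * ℓ n := mul_nonneg (by positivity) (hℓ n).le
        linarith
      · intro n
        rw [hnorm]
        have h6 : 0 < 2 ^ n * ℓ n := mul_pos (by positivity) (hℓ n)
        have h7 := hkey n
        rw [div_le_iff₀ (by linarith)]
        have h8 : ((1:ℝ) / 2) ^ n * (2 ^ n * ℓ n) = ℓ n := by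
          rw [← mul_assoc, ← mul_pow]; norm_num
        have h9 := mul_le_mul_of_nonneg_left h7 (show (0:ℝ) ≤ (1 / 2) ^ n by positivity)
        rw [h8] at h9
        exact h9
    exact ⟨hlt, hinj, coincidence hlt hinj hd hsep hsum⟩

end Pool.Agent.Run7.h104.Coin
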