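import Mathlib
import Pool.Agent.Run7.h104.Coin.P6

set_option autoImplicit false

open Complex Metric Set Filter Topology ComplexConjugate

namespace Pool.Agent.Run7.h104.Coin

/-- Every nonempty closed nowhere dense subset of the circle is a limit set. -/
theorem limit_set {K : Set ℂ} (hKc : IsClosed K) (hKn : K.Nonempty)
    (hnd : ∀ x ∈ K, ∀ ε : ℝ, 0 < ε → ∃ y : ℂ, ‖y‖ = 1 ∧ y ∉ K ∧ dist y x < ε) :
    ∃ z : ℕ → ℂ, ((∀ n, ‖z n‖ < 1) ∧ Function.Injective z ∧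
      ∃ f g : ℂ → ℂ, ClassS f ∧ ClassS g ∧ (∃ x ∈ ball (0:ℂ) 1, f x ≠ g x) ∧
        ∀ n, f (z n) = g (z n)) ∧
      ∀ x : ℂ, x ∈ K ↔ ∀ ε : ℝ, 0 < ε → ∀ N : ℕ, ∃ n, N ≤ n ∧ dist (z n) x < ε := by
  have : Nonempty K := hKn.to_subtype
  obtain ⟨u, hu⟩ := TopologicalSpace.exists_dense_seq K
  have step : ∀ (n : ℕ) (x : {y : ℂ // ‖y‖ = 1 ∧ y ∉ K}), ∃ y : {y : ℂ // ‖y‖ = 1 ∧ y ∉ K},
      dist (y : ℂ) (u (Nat.unpair n).1) < 1 / ((n : ℝ) + 1) ∧ infDist (y : ℂ) K < infDist (x : ℂ) K := by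
    intro n x
    have hx : 0 < infDist (x : ℂ) K := (hKc.notMem_iff_infDist_pos hKn).mp x.2.2
    have hn : (0:ℝ) < 1 / ((n : ℝ) + 1) := by positivity
    obtain ⟨y, hy1, hy2, hy3⟩ := hnd (u (Nat.unpair n).1) (u (Nat.unpair n).1).2
      (min (1 / ((n : ℝ) + 1)) (infDist (x : ℂ) K)) (lt_min hn hx)
    refine ⟨⟨y, hy1, hy2⟩, lt_of_lt_of_le hy3 (min_le_left _ _), ?_⟩
    exact lt_of_le_of_lt (infDist_le_dist_of_mem (u (Nat.unpair n).1).2)
      (lt_of_lt_of_le hy3 (min_le_right _ _))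
  choose st hst1 hst2 using step
  obtain ⟨x0, hx0⟩ := hKn
  obtain ⟨y0, hy01, hy02, _⟩ := hnd x0 hx0 1 one_pos
  obtain ⟨Z, hZ⟩ : ∃ Z : ℕ → {y : ℂ // ‖y‖ = 1 ∧ y ∉ K}, ∀ n, Z (n + 1) = st n (Z n) :=
    ⟨fun n => Nat.rec (motive := fun _ => {y : ℂ // ‖y‖ = 1 ∧ y ∉ K}) ⟨y0, hy01, hy02⟩
      (fun n x => st n x) n, fun n => rfl⟩
  let a : ℕ → ℝ := fun n => infDist (Z n : ℂ) K
  have hanti : StrictAnti a := strictAnti_nat_of_succ_lt (fun n => by
    have h0 := hst2 n (Z n)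
    rw [← hZ n] at h0
    exact h0)
  let ζ : ℕ → ℂ := fun n => (Z (n + 1) : ℂ)
  have hζ : ∀ n, ‖ζ n‖ = 1 := fun n => (Z (n + 1)).2.1
  have hζu : ∀ n, dist (ζ n) (u (Nat.unpair n).1) < 1 / ((n : ℝ) + 1) := by
    intro n
    have h0 := hst1 n (Z n)
    rw [← hZ n] at h0
    exact h0
  have hiso : ∀ n, ∃ p : ℝ, 0 < p ∧ ∀ m, m ≠ n → p ≤ ‖ζ m - ζ n‖ := by
    intro n
    refine ⟨min (a (n + 1) - a (n + 2)) (a n - a (n + 1)),
      lt_min (sub_pos.mpr (hanti (by omega))) (sub_pos.mpr (hanti (by omega))), ?_⟩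
    intro m hm
    rw [← dist_eq_norm]
    rcases lt_or_gt_of_ne hm with h | h
    · refine (min_le_right _ _).trans ?_
      have h1 : a n ≤ a (m + 1) := hanti.antitone (by omega)
      have h2 : infDist (ζ m) K ≤ infDist (ζ n) K + dist (ζ m) (ζ n) := infDist_le_infDist_add_dist
      have h3 : infDist (ζ m) K = a (m + 1) := rfl
      have h4 : infDist (ζ n) K = a (n + 1) := rfl
      linarith
    · refine (min_le_left _ _).trans ?_
      have h1 : a (m + 1) ≤ a (n + 2) := hanti.antitone (by omega)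
      have h2 : infDist (ζ n) K ≤ infDist (ζ m) K + dist (ζ n) (ζ m) := infDist_le_infDist_add_dist
      have h3 : infDist (ζ m) K = a (m + 1) := rfl
      have h4 : infDist (ζ n) K = a (n + 1) := rfl
      rw [dist_comm] at h2
      linarith
  obtain ⟨s, hs, hr⟩ := radii hζ hiso
  let r : ℕ → ℝ := fun n => max (s n) (1 - 1 / ((n : ℝ) + 2))
  have hr1 : ∀ n, s n ≤ r n ∧ r n < 1 := by
    intro n
    refine ⟨le_max_left _ _, max_lt (hs n) ?_⟩
    have : (0:ℝ) < 1 / ((n : ℝ) + 2) := by positivity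
    linarith
  have hr2 : ∀ n, 1 - r n ≤ 1 / ((n : ℝ) + 1) := by
    intro n
    have h1 : 1 - 1 / ((n : ℝ) + 2) ≤ r n := le_max_right _ _
    have h2 : 1 / ((n : ℝ) + 2) ≤ 1 / ((n : ℝ) + 1) :=
      one_div_le_one_div_of_le (by positivity) (by linarith)
    linarith
  have hdist : ∀ n, dist ((r n : ℂ) * ζ n) (u (Nat.unpair n).1) < 2 / ((n : ℝ) + 1) := by
    intro n
    have h1 : dist ((r n : ℂ) * ζ n) (ζ n) = 1 - r n := by
      rw [dist_comm, dist_eq_norm]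
      have : ζ n - (r n : ℂ) * ζ n = ((1 - r n : ℝ) : ℂ) * ζ n := by push_cast; ring
      rw [this, norm_mul, hζ, mul_one, Complex.norm_real, Real.norm_eq_abs,
        abs_of_pos (by linarith [(hr1 n).2])]
    have h2 := dist_triangle ((r n : ℂ) * ζ n) (ζ n) (u (Nat.unpair n).1 : ℂ)
    have h3 : 2 / ((n : ℝ) + 1) = 1 / ((n : ℝ) + 1) + 1 / ((n : ℝ) + 1) := by ring
    rw [h3]
    linarith [hr2 n, hζu n]
  refine ⟨fun n => (r n : ℂ) * ζ n, hr r hr1, ?_⟩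
  intro x
  constructor
  · intro hx ε hε N
    obtain ⟨i, hi⟩ : ∃ i, dist (u i) (⟨x, hx⟩ : K) < ε / 2 := by
      obtain ⟨i, hy1⟩ := hu.exists_mem_open isOpen_ball
        (⟨⟨x, hx⟩, mem_ball_self (by positivity : 0 < ε / 2)⟩ : (ball (⟨x, hx⟩ : K) (ε / 2)).Nonempty)
      exact ⟨i, hy1⟩
    obtain ⟨l, hl⟩ := exists_nat_gt (4 / ε)
    set n := Nat.pair i (max N l) with hn
    have hnl : max N l ≤ n := Nat.right_le_pair _ _
    refine ⟨n, (le_max_left _ _).trans hnl, ?_⟩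
    have h1 := hdist n
    have h2 : (Nat.unpair n).1 = i := by rw [hn, Nat.unpair_pair]
    rw [h2] at h1
    have h3 : 2 / ((n : ℝ) + 1) ≤ ε / 2 := by
      have h4 : (l : ℝ) ≤ n := by exact_mod_cast (le_max_right _ _).trans hnl
      rw [div_le_iff₀ (by positivity)]
      rw [div_lt_iff₀ hε] at hl
      nlinarith
    have h5 : dist (u i : ℂ) x < ε / 2 := hi
    have h6 := dist_triangle ((r n : ℂ) * ζ n) (u i : ℂ) x
    show dist ((r n : ℂ) * ζ n) x < ε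
    linarith
  · intro h
    rw [← hKc.closure_eq, Metric.mem_closure_iff]
    intro ε hε
    obtain ⟨N, hN⟩ := exists_nat_gt (4 / ε)
    obtain ⟨n, hn1, hn2⟩ := h (ε / 2) (by positivity) N
    refine ⟨u (Nat.unpair n).1, (u (Nat.unpair n).1).2, ?_⟩
    have h1 := hdist n
    have h3 : 2 / ((n : ℝ) + 1) ≤ ε / 2 := by
      have h4 : (N : ℝ) ≤ n := by exact_mod_cast hn1
      rw [div_le_iff₀ (by positivity)]
      rw [div_lt_iff₀ hε] at hN
      nlinarith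
    have h6 := dist_triangle x ((r n : ℂ) * ζ n) (u (Nat.unpair n).1 : ℂ)
    have h7 : dist ((r n : ℂ) * ζ n) x < ε / 2 := hn2
    rw [dist_comm] at h7
    linarith

end Pool.Agent.Run7.h104.Coin
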